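import Pool.Agent.Y124.Ultra

/-!
# Counting integral points of boxes
-/

set_option autoImplicit false
set_option linter.unusedSectionVars false

open Finset

namespace Pool.Agent.X255.NH

open Pool.Agent.Y124 (Cov)

variable {X : Type} [Fintype X] [DecidableEq X]

/-- Schwartz-Zippel for boxes with unequal sides -/
theorem sz_box (P : MvPolynomial X ℂ) (hP : P ≠ 0) (S : X → Finset ℤ) (b : X → ℂ) (hb : ∀ x, b x ≠ 0) (m₀ : ℕ)
    (hm : ∀ x, m₀ ≤ #(S x)) :
    m₀ * #({c ∈ Fintype.piFinset S | MvPolynomial.eval (fun x => (c x : ℂ) / b x) P = 0}) ≤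
      P.totalDegree * #(Fintype.piFinset S) := by
  classical
  rcases Nat.eq_zero_or_pos m₀ with h0 | h0
  · rw [h0, zero_mul]
    exact Nat.zero_le _
  let e : X ≃ Fin (Fintype.card X) := Fintype.equivFin X
  let φ : Fin (Fintype.card X) → ℤ → ℂ := fun i t => (t : ℂ) / b (e.symm i)
  have hφ : ∀ i, Function.Injective (φ i) := by
    intro i t t' h
    have h1 := hb (e.symm i)
    simp only [φ] at h
    rw [div_left_inj' h1] at h
    exact_mod_cast h
  let S' : Fin (Fintype.card X) → Finset ℂ := fun i => (S (e.symm i)).image (φ i)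
  have hS' : ∀ i, #(S' i) = #(S (e.symm i)) := fun i => card_image_of_injective _ (hφ i)
  have hp' : MvPolynomial.rename e P ≠ 0 := by
    intro h
    exact hP (MvPolynomial.rename_injective e e.injective (by rw [h, map_zero]))
  have hsz := MvPolynomial.schwartz_zippel_sup_sum hp' S'
  have hpos : ∀ i, (0 : ℚ≥0) < #(S' i) := by
    intro i
    have h1 := hm (e.symm i)
    have h2 : 0 < #(S' i) := by rw [hS']; omega
    exact_mod_cast h2
  have hprod : ∏ i, (#(S' i) : ℚ≥0) = (#(Fintype.piFinset S) : ℚ≥0) := by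
    rw [Fintype.card_piFinset, Nat.cast_prod, ← Equiv.prod_comp e.symm fun x => ((#(S x) : ℕ) : ℚ≥0)]
    exact Finset.prod_congr rfl fun i _ => by rw [hS']
  have hcard : #({c ∈ Fintype.piFinset S | MvPolynomial.eval (fun x => (c x : ℂ) / b x) P = 0}) ≤
      #({x ∈ Fintype.piFinset S' | MvPolynomial.eval x (MvPolynomial.rename e P) = 0}) := by
    refine card_le_card_of_injOn (fun c i => φ i (c (e.symm i))) ?_ ?_
    · intro c hc
      rw [mem_coe, mem_filter, Fintype.mem_piFinset] at hc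
      rw [mem_coe, mem_filter, Fintype.mem_piFinset]
      refine ⟨fun i => mem_image_of_mem _ (hc.1 _), ?_⟩
      rw [MvPolynomial.eval_rename]
      have h1 : (fun i => φ i (c (e.symm i))) ∘ e = fun x => (c x : ℂ) / b x := by
        funext x
        simp [φ]
      rw [h1]
      exact hc.2
    · intro c _ c' _ h
      funext x
      have h1 := congrFun h (e x)
      have h2 := hφ _ h1
      simpa using h2
  have hsup : ((MvPolynomial.rename e P).support.sup fun s => ∑ i, (s i / #(S' i) : ℚ≥0)) ≤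
      (P.totalDegree : ℚ≥0) / m₀ := by
    refine Finset.sup_le fun s hs => ?_
    have h1 : ∑ i, (s i / #(S' i) : ℚ≥0) ≤ ∑ i, (s i / m₀ : ℚ≥0) := by
      refine Finset.sum_le_sum fun i _ => ?_
      have h2 : (m₀ : ℚ≥0) ≤ #(S' i) := by
        rw [hS']
        exact_mod_cast hm (e.symm i)
      have h3 : (0 : ℚ≥0) < m₀ := by exact_mod_cast h0
      gcongr
    refine h1.trans ?_
    rw [← Finset.sum_div]
    have h3 : (0 : ℚ≥0) < m₀ := by exact_mod_cast h0
    have h4 : (∑ i, (s i : ℚ≥0)) ≤ P.totalDegree := by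
      have h5 := (MvPolynomial.le_totalDegree hs).trans (MvPolynomial.totalDegree_rename_le _ _)
      have h6 : (s.sum fun _ e => e) = ∑ i, s i := Finsupp.sum_fintype _ _ fun _ => rfl
      rw [h6] at h5
      exact_mod_cast h5
    gcongr
  have h1 := hsz.trans hsup
  rw [hprod] at h1
  have hbox : (0 : ℚ≥0) < #(Fintype.piFinset S) := by
    rw [← hprod]
    exact Finset.prod_pos fun i _ => hpos i
  have h3 : (0 : ℚ≥0) < m₀ := by exact_mod_cast h0
  rw [div_le_div_iff₀ hbox h3] at h1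
  have h2 : (#({c ∈ Fintype.piFinset S | MvPolynomial.eval (fun x => (c x : ℂ) / b x) P = 0}) : ℚ≥0) * m₀ ≤
      P.totalDegree * #(Fintype.piFinset S) := by
    refine le_trans ?_ h1
    have h4 : (#({c ∈ Fintype.piFinset S | MvPolynomial.eval (fun x => (c x : ℂ) / b x) P = 0}) : ℚ≥0) ≤
      #({x ∈ Fintype.piFinset S' | MvPolynomial.eval x (MvPolynomial.rename e P) = 0}) := by exact_mod_cast hcard
    gcongr
  have h5 : #({c ∈ Fintype.piFinset S | MvPolynomial.eval (fun x => (c x : ℂ) / b x) P = 0}) * m₀ ≤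
      P.totalDegree * #(Fintype.piFinset S) := by exact_mod_cast h2
  rw [mul_comm]
  exact h5

/-- the integral points of a box on few hypersurfaces -/
theorem cov_box (S : X → Finset ℤ) (b : X → ℂ) (hb : ∀ x, b x ≠ 0) (m₀ : ℕ) (hm : ∀ x, m₀ ≤ #(S x)) {D m : ℕ}
    (E : Finset (X → ℤ)) (hE : E ⊆ Fintype.piFinset S)
    (hcov : Cov D m ((fun (c : X → ℤ) x => (c x : ℂ) / b x) '' (E : Set (X → ℤ)))) :
    m₀ * #E ≤ m * (D * #(Fintype.piFinset S)) := by
  classical
  obtain ⟨Φ, h1, h2, h3⟩ := hcov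
  have hsub : E ⊆ Φ.biUnion fun P =>
      {c ∈ Fintype.piFinset S | MvPolynomial.eval (fun x => (c x : ℂ) / b x) P = 0} := by
    intro c hc
    obtain ⟨P, hP, hP'⟩ := h3 _ ⟨c, hc, rfl⟩
    exact mem_biUnion.2 ⟨P, hP, mem_filter.2 ⟨hE hc, hP'⟩⟩
  calc m₀ * #E ≤ m₀ * ∑ P ∈ Φ, #({c ∈ Fintype.piFinset S | MvPolynomial.eval (fun x => (c x : ℂ) / b x) P = 0}) :=
        Nat.mul_le_mul_left _ ((card_le_card hsub).trans card_biUnion_le)
    _ = ∑ P ∈ Φ, m₀ * #({c ∈ Fintype.piFinset S | MvPolynomial.eval (fun x => (c x : ℂ) / b x) P = 0}) :=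
        mul_sum _ _ _
    _ ≤ ∑ _P ∈ Φ, D * #(Fintype.piFinset S) := Finset.sum_le_sum fun P hP =>
        (sz_box P (h2 P hP).1 S b hb m₀ hm).trans (Nat.mul_le_mul_right _ (h2 P hP).2)
    _ = #Φ * (D * #(Fintype.piFinset S)) := by rw [sum_const, smul_eq_mul]
    _ ≤ _ := Nat.mul_le_mul_right _ h1

/-- counting along one coordinate -/
theorem fiber_count (S : X → Finset ℤ) (E : Finset (X → ℤ)) (hE : E ⊆ Fintype.piFinset S) (x0 : X) (M : ℝ)
    (hM : ∀ c ∈ Fintype.piFinset S, (#({t ∈ S x0 | Function.update c x0 t ∈ E}) : ℝ) ≤ M) :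
    (#(S x0) : ℝ) * #E ≤ M * #(Fintype.piFinset S) := by
  classical
  have h1 : #(E ×ˢ S x0) ≤ #((Fintype.piFinset S).sigma fun c => {t ∈ S x0 | Function.update c x0 t ∈ E}) := by
    refine card_le_card_of_injOn (fun p => ⟨Function.update p.1 x0 p.2, p.1 x0⟩) ?_ ?_
    · intro p hp
      rw [mem_coe, mem_product] at hp
      rw [mem_coe, mem_sigma, mem_filter, Fintype.mem_piFinset]
      have h2 := Fintype.mem_piFinset.1 (hE hp.1)
      refine ⟨fun x => ?_, h2 x0, ?_⟩
      · rcases eq_or_ne x x0 with rfl | hx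
        · simpa using hp.2
        · simpa [Function.update_of_ne hx] using h2 x
      · simpa using hp.1
    · rintro ⟨e, t⟩ _ ⟨e', t'⟩ _ h
      simp only [Sigma.mk.injEq, heq_eq_eq] at h
      obtain ⟨h2, h3⟩ := h
      have h4 : t = t' := by
        have := congrFun h2 x0
        simpa using this
      subst h4
      refine Prod.ext ?_ rfl
      funext x
      rcases eq_or_ne x x0 with rfl | hx
      · exact h3
      · have := congrFun h2 x
        simpa [Function.update_of_ne hx] using this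
  rw [card_product, card_sigma] at h1
  have h2 : ((#E * #(S x0) : ℕ) : ℝ) ≤
      ((∑ c ∈ Fintype.piFinset S, #({t ∈ S x0 | Function.update c x0 t ∈ E}) : ℕ) : ℝ) := by exact_mod_cast h1
  push_cast at h2
  have h3 := Finset.sum_le_sum fun c hc => hM c hc
  rw [sum_const, nsmul_eq_mul] at h3
  calc (#(S x0) : ℝ) * #E = #E * #(S x0) := mul_comm _ _
    _ ≤ _ := h2
    _ ≤ _ := h3
    _ = _ := mul_comm _ _

end Pool.Agent.X255.NH
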