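import Pool.Agent.X255.NP.Root
import Pool.Agent.X255.NH.Cnt

/-!
# Polynomials with two close roots
-/

set_option autoImplicit false
set_option linter.unusedSectionVars false

open Polynomial Filter Topology

namespace Pool.Agent.X255.NH

open Pool.Agent.X255.NP

theorem root_le_two {d : ℕ} (a : Fin d → ℂ) (ha : ∀ i, ‖a i‖ ≤ 1) (x : ℂ) (hx : (mp a).eval x = 0) : ‖x‖ ≤ 2 := by
  by_contra hcon
  push Not at hcon
  have h1 : x ^ d = -∑ i : Fin d, a i * x ^ (i : ℕ) := by
    have h2 : (mp a).eval x = x ^ d + ∑ i : Fin d, a i * x ^ (i : ℕ) := by simp [mp, eval_finsetSum]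
    rw [h2] at hx
    linear_combination hx
  have h2 : ‖x‖ ^ d ≤ ∑ i : Fin d, ‖x‖ ^ (i : ℕ) := by
    rw [← norm_pow, h1, norm_neg]
    refine (norm_sum_le _ _).trans (Finset.sum_le_sum fun i _ => ?_)
    rw [norm_mul, norm_pow]
    exact mul_le_of_le_one_left (by positivity) (ha i)
  have h3 : ∀ k : ℕ, ∑ i : Fin k, ‖x‖ ^ (i : ℕ) ≤ ‖x‖ ^ k - 1 := by
    intro k
    induction k with
    | zero => simp
    | succ k ih =>
      rw [Fin.sum_univ_castSucc]
      simp only [Fin.val_castSucc, Fin.val_last]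
      have h4 : 0 < ‖x‖ ^ k := by positivity
      rw [pow_succ]
      nlinarith
  have h4 := h3 d
  linarith

theorem prod_lower (x : ℂ) {ρ : ℝ} (hρ : 0 ≤ ρ) (s : Multiset ℂ) (h : ∀ w ∈ s, ρ ≤ ‖x - w‖) :
    ρ ^ Multiset.card s ≤ ‖(s.map fun w => x - w).prod‖ := by
  induction s using Multiset.induction_on with
  | empty => simp
  | cons w s ih =>
    rw [Multiset.card_cons, Multiset.map_cons, Multiset.prod_cons, norm_mul, pow_succ, mul_comm]
    exact mul_le_mul (h w (Multiset.mem_cons_self _ _)) (ih fun w' hw' => h w' (Multiset.mem_cons_of_mem hw'))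
      (by positivity) (norm_nonneg _)

theorem der_lead {d : ℕ} (hd : 0 < d) (a : Fin d → ℂ) : (mp a).derivative.natDegree = d - 1 ∧
    (mp a).derivative.leadingCoeff = d := by
  have h1 : (mp a).derivative.coeff (d - 1) = d := by
    rw [coeff_derivative, Nat.sub_add_cancel hd]
    have h2 := (mp_monic a).coeff_natDegree
    rw [mp_degree] at h2
    rw [h2, one_mul]
    have : ((d - 1 : ℕ) : ℂ) = (d : ℂ) - 1 := by
      rw [Nat.cast_sub hd]
      simp
    rw [this]
    ring
  have h2 : (mp a).derivative.natDegree = d - 1 := by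
    refine le_antisymm ?_ ?_
    · have := natDegree_derivative_le (mp a)
      rwa [mp_degree] at this
    · apply le_natDegree_of_ne_zero
      rw [h1]
      exact_mod_cast hd.ne'
  exact ⟨h2, by rw [leadingCoeff, h2, h1]⟩

theorem der_root {d : ℕ} (z : Fin d → ℂ) (r : Fin d) :
    (mp (co z)).derivative.eval (z r) = ∏ j ∈ Finset.univ.erase r, (z r - z j) := by
  rw [mp_co, derivative_prod_finset, eval_finsetSum]
  rw [Finset.sum_eq_single r]
  · simp only [derivative_sub, derivative_X, derivative_C, sub_zero, mul_one, eval_prod, eval_sub, eval_X, eval_C]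
  · intro j _ hj
    rw [eval_mul, eval_prod, Finset.prod_eq_zero (Finset.mem_erase.2 ⟨Ne.symm hj, Finset.mem_univ r⟩) (by simp),
      zero_mul]
  · intro h
    exact absurd (Finset.mem_univ _) h

/-- **close roots give small critical values** -/
theorem exists_crit (d : ℕ) {κ : ℝ} (hκ : 0 < κ) : ∃ η : ℝ, 0 < η ∧ ∀ z : Fin d → ℂ, (∀ i, ‖co z i‖ ≤ 1) →
    ∀ r s, r ≠ s → ‖z r - z s‖ < η → ∃ w, (mp (co z)).derivative.eval w = 0 ∧ ‖(mp (co z)).eval w‖ ≤ κ := by
  set K : Set ((Fin d → ℂ) × ℂ) := Metric.closedBall 0 1 ×ˢ Metric.closedBall 0 3 with hK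
  have hKc : IsCompact K := (isCompact_closedBall _ _).prod (isCompact_closedBall _ _)
  have huc := hKc.uniformContinuousOn_of_continuous (FF_contDiff (g := d)).continuous.continuousOn
  rw [Metric.uniformContinuousOn_iff] at huc
  obtain ⟨ρ₀, hρ₀, huc⟩ := huc κ hκ
  set ρ := min ρ₀ 1 with hρ
  have hρp : 0 < ρ := lt_min hρ₀ one_pos
  refine ⟨ρ ^ (d - 1) / 4 ^ d, by positivity, fun z hz r s hrs hlt => ?_⟩
  have hd : 0 < d := by have := r.2; omega
  have hroot : ∀ j, (mp (co z)).eval (z j) = 0 := by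
    intro j
    rw [mp_co, eval_prod, Finset.prod_eq_zero (Finset.mem_univ j) (by simp)]
  have h2 : ∀ j, ‖z j‖ ≤ 2 := fun j => root_le_two _ hz _ (hroot j)
  -- the derivative is small
  have h3 : ‖(mp (co z)).derivative.eval (z r)‖ < ρ ^ (d - 1) := by
    rw [der_root, ← Finset.mul_prod_erase _ _ (Finset.mem_erase.2 ⟨hrs.symm, Finset.mem_univ s⟩), norm_mul, norm_prod]
    have h4 : ∏ j ∈ (Finset.univ.erase r).erase s, ‖z r - z j‖ ≤ 4 ^ d := by
      calc ∏ j ∈ (Finset.univ.erase r).erase s, ‖z r - z j‖ ≤ ∏ _j ∈ (Finset.univ.erase r).erase s, (4 : ℝ) := by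
            refine Finset.prod_le_prod (fun _ _ => norm_nonneg _) fun j _ => ?_
            have h5 := norm_sub_le (z r) (z j)
            have h6 := h2 r
            have h7 := h2 j
            linarith
        _ = 4 ^ ((Finset.univ.erase r).erase s).card := Finset.prod_const _
        _ ≤ 4 ^ d := by
            refine pow_le_pow_right₀ (by norm_num) ?_
            have h5 := Finset.card_le_univ ((Finset.univ.erase r).erase s)
            rwa [Fintype.card_fin] at h5
    have h5 : 0 ≤ ∏ j ∈ (Finset.univ.erase r).erase s, ‖z r - z j‖ := Finset.prod_nonneg fun _ _ => norm_nonneg _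
    rcases h5.eq_or_lt with h6 | h6
    · rw [← h6, mul_zero]
      positivity
    · calc ‖z r - z s‖ * ∏ j ∈ (Finset.univ.erase r).erase s, ‖z r - z j‖
          < ρ ^ (d - 1) / 4 ^ d * ∏ j ∈ (Finset.univ.erase r).erase s, ‖z r - z j‖ := by nlinarith
        _ ≤ ρ ^ (d - 1) / 4 ^ d * 4 ^ d := mul_le_mul_of_nonneg_left h4 (by positivity)
        _ = ρ ^ (d - 1) := by field_simp
  obtain ⟨hnd, hlc⟩ := der_lead hd (co z)
  obtain ⟨w, hw, hwr⟩ : ∃ w ∈ (mp (co z)).derivative.roots, ‖z r - w‖ < ρ := by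
    by_contra hcon
    push Not at hcon
    have h4 := prod_lower (z r) hρp.le _ hcon
    have hsp := IsAlgClosed.splits (mp (co z)).derivative
    have h5 := hsp.eq_prod_roots
    have h6 := hsp.natDegree_eq_card_roots
    have h7 := congrArg (fun p => ‖Polynomial.eval (z r) p‖) h5
    simp only [eval_mul, eval_C, norm_mul] at h7
    rw [hlc, eval_multiset_prod, Multiset.map_map] at h7
    have h8 : (Multiset.map (Polynomial.eval (z r) ∘ fun a => X - C a) (mp (co z)).derivative.roots).prod =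
        ((mp (co z)).derivative.roots.map fun w => z r - w).prod := by
      congr 1
      refine Multiset.map_congr rfl fun w _ => ?_
      simp
    rw [h8, Complex.norm_natCast] at h7
    rw [← h6, hnd] at h4
    have h9 : (1 : ℝ) ≤ d := by exact_mod_cast hd
    have h10 : ρ ^ (d - 1) ≤ ‖(mp (co z)).derivative.eval (z r)‖ := by
      rw [h7]
      nlinarith [norm_nonneg ((mp (co z)).derivative.roots.map fun w => z r - w).prod]
    linarith
  refine ⟨w, (mem_roots'.1 hw).2, ?_⟩
  have h4 : ‖w‖ ≤ 3 := by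
    have h5 := norm_sub_norm_le w (z r)
    rw [norm_sub_rev] at h5
    have h6 := h2 r
    have h7 : ρ ≤ 1 := min_le_right _ _
    linarith
  have hmem : ∀ x : ℂ, ‖x‖ ≤ 3 → (co z, x) ∈ K := by
    intro x hx
    refine ⟨?_, ?_⟩
    · rw [Metric.mem_closedBall, dist_zero_right, pi_norm_le_iff_of_nonneg zero_le_one]
      exact hz
    · rw [Metric.mem_closedBall, dist_zero_right]
      exact hx
  have h5 := huc (co z, w) (hmem w h4) (co z, z r) (hmem _ (by have := h2 r; linarith)) (by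
    rw [Prod.dist_eq, dist_self, max_lt_iff, dist_eq_norm, norm_sub_rev]
    exact ⟨hρ₀, hwr.trans_le (min_le_left _ _)⟩)
  rw [dist_eq_norm] at h5
  have h6 : FF (co z, z r) = 0 := hroot r
  rw [h6, sub_zero] at h5
  exact h5.le

theorem int_interval (s : ℕ) (u κ : ℝ) (hκ : 0 ≤ κ) (S : Finset ℤ) (hS : ∀ t ∈ S, |u + (t : ℝ) / s| ≤ κ)
    (hs : 0 < s) : (S.card : ℝ) ≤ 2 * κ * s + 1 := by
  have hs' : (0 : ℝ) < s := by exact_mod_cast hs
  have h1 : S ⊆ Finset.Icc ⌈(-κ - u) * s⌉ ⌊(κ - u) * s⌋ := by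
    intro t ht
    have h2 := abs_le.1 (hS t ht)
    rw [Finset.mem_Icc, Int.ceil_le, Int.le_floor]
    constructor
    · have h3 : -κ - u ≤ (t : ℝ) / s := by linarith [h2.1]
      rwa [le_div_iff₀ hs'] at h3
    · have h3 : (t : ℝ) / s ≤ κ - u := by linarith [h2.2]
      rwa [div_le_iff₀ hs'] at h3
  have h2 := Finset.card_le_card h1
  rw [Int.card_Icc] at h2
  have h3 : (S.card : ℝ) ≤ ((⌊(κ - u) * s⌋ + 1 - ⌈(-κ - u) * s⌉).toNat : ℝ) := by exact_mod_cast h2
  refine h3.trans ?_
  rcases le_total 0 (⌊(κ - u) * s⌋ + 1 - ⌈(-κ - u) * s⌉) with h4 | h4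
  · have h5 : ((⌊(κ - u) * s⌋ + 1 - ⌈(-κ - u) * s⌉).toNat : ℝ) = ((⌊(κ - u) * s⌋ + 1 - ⌈(-κ - u) * s⌉ : ℤ) : ℝ) := by
      exact_mod_cast congrArg (fun x : ℤ => (x : ℝ)) (Int.toNat_of_nonneg h4)
    rw [h5]
    push_cast
    have h6 := Int.floor_le ((κ - u) * s)
    have h7 := Int.le_ceil ((-κ - u) * s)
    linarith
  · rw [Int.toNat_of_nonpos h4]
    push_cast
    positivity

end Pool.Agent.X255.NH
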