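import Pool.Agent.X255.NH.GoodOf
import Pool.Agent.X255.NH.Sep

/-!
# Boxes of tuples of polynomials
-/

set_option autoImplicit false
set_option linter.unusedSectionVars false

open Polynomial Filter Topology NumberField

namespace Pool.Agent.X255.NH

open Pool.Agent.X255.NP
open Pool.Agent.Y890.SP (Qbar)
open Pool.Agent.Y124 (Cov)

variable {ι : Type} [Fintype ι] [DecidableEq ι]

/-- the tuples of monic polynomials of degrees `n i + 1` with integral coefficients, the coefficient of `x ^ r` being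
of absolute value at most `B ^ (n i + 1 - r)` -/
noncomputable def Box (n : ι → ℕ) (B : ℕ) : Finset ((Σ i, Fin (n i + 1)) → ℤ) :=
  Fintype.piFinset fun q => Finset.Icc (-(sd n B q : ℤ)) (sd n B q : ℤ)

theorem mem_Box {n : ι → ℕ} {B : ℕ} {c : (Σ i, Fin (n i + 1)) → ℤ} :
    c ∈ Box n B ↔ ∀ q, |c q| ≤ (sd n B q : ℤ) := by
  rw [Box, Fintype.mem_piFinset]
  simp only [Finset.mem_Icc, abs_le]

theorem nc_le {n : ι → ℕ} {B : ℕ} (hB : 1 ≤ B) {c : (Σ i, Fin (n i + 1)) → ℤ} (hc : c ∈ Box n B)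
    (q : Σ i, Fin (n i + 1)) : ‖nc n B c q‖ ≤ 1 := by
  have h1 := mem_Box.1 hc q
  have h2 : (0 : ℝ) < sd n B q := by exact_mod_cast sd_pos hB q
  rw [nc, norm_div, Complex.norm_intCast, Complex.norm_natCast, div_le_one h2]
  exact_mod_cast h1

/-- all monic polynomials split -/
theorem exists_co {d : ℕ} (a : Fin d → ℂ) : ∃ z : Fin d → ℂ, co z = a := by
  have hsp := IsAlgClosed.splits (mp a)
  have h1 := hsp.eq_prod_roots_of_monic (mp_monic a)
  have h2 := hsp.natDegree_eq_card_roots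
  rw [mp_degree] at h2
  obtain ⟨l, hl⟩ : ∃ l : List ℂ, (l : Multiset ℂ) = (mp a).roots := Quot.exists_rep _
  rw [← hl, Multiset.coe_card] at h2
  rw [← hl] at h1
  subst h2
  refine ⟨fun j => l[j.1], ?_⟩
  have h3 : mp a = ∏ j : Fin l.length, (X - C (l[j.1])) := by
    rw [h1, Multiset.map_coe, Multiset.prod_coe]
    exact (Fin.prod_univ_fun_getElem l fun a => X - C a).symm
  funext i
  rw [co, ← h3, mp_coeff]

theorem co_perm {d : ℕ} (z : Fin d → ℂ) (σ : Equiv.Perm (Fin d)) : co (fun r => z (σ r)) = co z := by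
  funext i
  rw [co, co, Equiv.prod_comp σ fun r => X - C (z r)]

/-- separated roots in the direction `lam` -/
def Rt (n : ι → ℕ) (lam : ℂ) (δ : ℝ) : Set ((Σ i, Fin (n i + 1)) → ℂ) :=
  {z | (∀ q, ‖z q‖ ≤ 2) ∧ ∀ i (r s : Fin (n i + 1)), r < s → δ ≤ (lam * (z ⟨i, s⟩ - z ⟨i, r⟩)).re}

theorem Rt_compact (n : ι → ℕ) (lam : ℂ) (δ : ℝ) : IsCompact (Rt n lam δ) := by
  have h1 : IsClosed (Rt n lam δ) := by
    have h2 : Rt n lam δ = (⋂ q, {z | ‖z q‖ ≤ 2}) ∩ ⋂ (i : ι) (r : Fin (n i + 1)) (s : Fin (n i + 1)) (_ : r < s),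
        {z | δ ≤ (lam * (z ⟨i, s⟩ - z ⟨i, r⟩)).re} := by
      ext z
      simp [Rt]
    rw [h2]
    refine IsClosed.inter (isClosed_iInter fun q => isClosed_le (continuous_apply q).norm continuous_const) ?_
    refine isClosed_iInter fun i => isClosed_iInter fun r => isClosed_iInter fun s => isClosed_iInter fun _ => ?_
    exact isClosed_le continuous_const (Complex.continuous_re.comp (continuous_const.mul
      ((continuous_apply _).sub (continuous_apply _))))
  refine Metric.isCompact_of_isClosed_isBounded h1 ((Metric.isBounded_closedBall (x := (0 : (Σ i, Fin (n i + 1)) → ℂ))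
    (r := 2)).subset fun z hz => ?_)
  rw [Metric.mem_closedBall, dist_zero_right, pi_norm_le_iff_of_nonneg (by norm_num)]
  exact hz.1

/-- the coefficients of the polynomials with separated roots -/
def Lc (n : ι → ℕ) (lam : ℂ) (δ : ℝ) : Set ((Σ i, Fin (n i + 1)) → ℂ) :=
  (fun z (q : Σ i, Fin (n i + 1)) => co (bk z q.1) q.2) '' Rt n lam δ

theorem Lc_compact (n : ι → ℕ) (lam : ℂ) (δ : ℝ) : IsCompact (Lc n lam δ) := by
  refine (Rt_compact n lam δ).image (continuous_pi fun q => ?_)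
  exact (continuous_apply q.2).comp (co_cont.comp (bk_cont q.1))

theorem Rt_ord {n : ι → ℕ} {lam : ℂ} {δ : ℝ} (hδ : 0 < δ) {z : (Σ i, Fin (n i + 1)) → ℂ} (hz : z ∈ Rt n lam δ) (i : ι) :
    bk z i ∈ OrdL lam (n i) := by
  intro r s hrs
  have h1 := hz.2 i r s hrs
  rw [mul_sub, Complex.sub_re] at h1
  change (lam * z ⟨i, r⟩).re < (lam * z ⟨i, s⟩).re
  linarith

theorem Lc_sub {n : ι → ℕ} {lam : ℂ} {δ : ℝ} (hδ : 0 < δ) : Lc n lam δ ⊆ WL n lam := by
  rintro _ ⟨z, hz, rfl⟩ i
  exact ⟨bk z i, Rt_ord hδ hz i, rfl⟩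

/-- polynomials with separated roots are separated in some direction -/
theorem exists_Lc {n : ι → ℕ} {M : ℕ} (lam : Fin M → ℂ) {s₀ : ℝ}
    (hs₀ : ∀ (A : Type) [Fintype A] (v : A → ℂ), Fintype.card A < M → ∃ q, ∀ a, s₀ * ‖v a‖ ≤ |(lam q * v a).re|)
    (hM : Fintype.card (Σ i, Fin (n i + 1) × Fin (n i + 1)) < M) (hs : 0 < s₀) {η : ℝ} (hη : 0 < η)
    (a : (Σ i, Fin (n i + 1)) → ℂ) (ha : ∀ q, ‖a q‖ ≤ 1)
    (hsep : ∀ i (z : Fin (n i + 1) → ℂ), co z = bk a i → ∀ r s, r ≠ s → η ≤ ‖z r - z s‖) :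
    ∃ q, a ∈ Lc n (lam q) (s₀ * η) := by
  classical
  choose z hz using fun i => exists_co (bk a i)
  obtain ⟨q, hq⟩ := hs₀ (Σ i, Fin (n i + 1) × Fin (n i + 1)) (fun v => z v.1 v.2.1 - z v.1 v.2.2) hM
  refine ⟨q, ?_⟩
  let f : ∀ i, Fin (n i + 1) → ℝ := fun i r => (lam q * z i r).re
  let σ : ∀ i, Equiv.Perm (Fin (n i + 1)) := fun i => Tuple.sort (f i)
  refine ⟨fun v => z v.1 (σ v.1 v.2), ⟨?_, ?_⟩, ?_⟩
  · intro v
    refine root_le_two (bk a v.1) (fun r => ha _) _ ?_
    rw [← hz, mp_co, eval_prod, Finset.prod_eq_zero (Finset.mem_univ (σ v.1 v.2)) (by simp)]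
  · intro i r s hrs
    have h1 : f i (σ i r) ≤ f i (σ i s) := Tuple.monotone_sort (f i) hrs.le
    have h2 : σ i r ≠ σ i s := fun h => hrs.ne ((σ i).injective h)
    have h3 := hq ⟨i, (σ i r, σ i s)⟩
    have h4 := hsep i (z i) (hz i) _ _ h2
    have h5 : (lam q * (z i (σ i r) - z i (σ i s))).re = f i (σ i r) - f i (σ i s) := by
      rw [mul_sub, Complex.sub_re]
    have h6 : (lam q * (z i (σ i s) - z i (σ i r))).re = f i (σ i s) - f i (σ i r) := by
      rw [mul_sub, Complex.sub_re]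
    simp only at h3
    rw [h5, abs_sub_comm, abs_of_nonneg (by linarith)] at h3
    change s₀ * η ≤ (lam q * (z i (σ i s) - z i (σ i r))).re
    rw [h6]
    nlinarith
  · funext v
    change co (fun r => z v.1 (σ v.1 r)) v.2 = a v
    rw [co_perm, hz]
    rfl

/-- the tuples with a small critical value -/
noncomputable def Crit (n : ι → ℕ) (B : ℕ) (κ : ℝ) (i : ι) : Finset ((Σ i, Fin (n i + 1)) → ℤ) :=
  by classical exact (Box n B).filter fun c => ∃ w, (mp (bk (nc n B c) i)).derivative.eval w = 0 ∧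
    ‖(mp (bk (nc n B c) i)).eval w‖ ≤ κ

theorem mp_update {d : ℕ} (a : Fin (d + 1) → ℂ) (u : ℂ) : mp (Function.update a 0 u) = mp (Function.update a 0 0) + C u := by
  unfold mp
  rw [Fin.sum_univ_succ, Fin.sum_univ_succ]
  simp only [Function.update_self, Fin.val_zero, pow_zero, mul_one, C_0, zero_mul, zero_add]
  have h1 : ∀ (v : ℂ) (j : Fin d), Function.update a 0 v j.succ = a j.succ := fun v j =>
    Function.update_of_ne (Fin.succ_ne_zero j) _ _
  simp only [h1]
  ring

theorem crit_count {n : ι → ℕ} {B : ℕ} (hB : 1 ≤ B) {κ : ℝ} (hκ : 0 ≤ κ) (i : ι) :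
    ((Crit n B κ i).card : ℝ) ≤ n i * (κ + 1 / B) * (Box n B).card := by
  classical
  set x0 : Σ i, Fin (n i + 1) := ⟨i, 0⟩ with hx0
  set s := sd n B x0 with hs
  have hs0 : 0 < s := sd_pos hB x0
  have hs0' : (0 : ℝ) < s := by exact_mod_cast hs0
  have hsB : (B : ℝ) ≤ s := by
    have h1 : B ≤ s := by
      rw [hs, sd]
      refine Nat.le_self_pow ?_ B
      change n i + 1 - ((0 : Fin (n i + 1)) : ℕ) ≠ 0
      simp
    exact_mod_cast h1
  have hBr : (1 : ℝ) ≤ B := by exact_mod_cast hB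
  have hfib := fiber_count (fun q => Finset.Icc (-(sd n B q : ℤ)) (sd n B q : ℤ)) (Crit n B κ i)
    (by unfold Crit; exact Finset.filter_subset _ _) x0 ((n i : ℝ) * (2 * κ * s + 1)) (by
      intro c hc
      set g : ℂ[X] := mp (Function.update (bk (nc n B c) i) 0 0) with hg
      have hbk : ∀ t : ℤ, bk (nc n B (Function.update c x0 t)) i =
          Function.update (bk (nc n B c) i) 0 ((t : ℂ) / s) := by
        intro t
        funext r
        rcases eq_or_ne r 0 with rfl | hr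
        · rw [Function.update_self]
          change nc n B (Function.update c x0 t) x0 = _
          rw [nc, Function.update_self]
        · rw [Function.update_of_ne hr]
          change nc n B (Function.update c x0 t) ⟨i, r⟩ = nc n B c ⟨i, r⟩
          have h2 : (⟨i, r⟩ : Σ i, Fin (n i + 1)) ≠ x0 := by
            intro h
            rw [hx0] at h
            exact hr (by simpa using h)
          rw [nc, nc, Function.update_of_ne h2]
      have hd := der_lead (Nat.succ_pos (n i)) (Function.update (bk (nc n B c) i) 0 0)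
      have hg0 : g.derivative ≠ 0 := by
        intro h0
        have h1 := hd.2
        rw [← hg, h0, leadingCoeff_zero] at h1
        exact Nat.cast_ne_zero.2 (Nat.succ_ne_zero (n i)) h1.symm
      have hsub : ({t ∈ Finset.Icc (-(sd n B x0 : ℤ)) (sd n B x0 : ℤ) | Function.update c x0 t ∈ Crit n B κ i}) ⊆
          g.derivative.roots.toFinset.biUnion fun w =>
            (Finset.Icc (-(sd n B x0 : ℤ)) (sd n B x0 : ℤ)).filter fun t : ℤ => ‖g.eval w + (t : ℂ) / s‖ ≤ κ := by
        intro t ht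
        rw [Finset.mem_filter] at ht
        obtain ⟨ht1, ht2⟩ := ht
        unfold Crit at ht2
        rw [Finset.mem_filter] at ht2
        obtain ⟨_, w, hw1, hw2⟩ := ht2
        rw [hbk, mp_update, ← hg] at hw1 hw2
        rw [derivative_add, derivative_C, add_zero] at hw1
        rw [eval_add, eval_C] at hw2
        rw [Finset.mem_biUnion]
        refine ⟨w, ?_, Finset.mem_filter.2 ⟨ht1, hw2⟩⟩
        rw [Multiset.mem_toFinset, mem_roots hg0]
        exact hw1
      have h1 := (Finset.card_le_card hsub).trans Finset.card_biUnion_le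
      have h2 : ((({t ∈ Finset.Icc (-(sd n B x0 : ℤ)) (sd n B x0 : ℤ) | Function.update c x0 t ∈ Crit n B κ i}).card :
          ℕ) : ℝ) ≤ ∑ w ∈ g.derivative.roots.toFinset,
          ((((Finset.Icc (-(sd n B x0 : ℤ)) (sd n B x0 : ℤ)).filter fun t : ℤ => ‖g.eval w + (t : ℂ) / s‖ ≤ κ).card : ℕ) : ℝ) := by
        exact_mod_cast h1
      refine h2.trans ?_
      have h3 : ∀ w ∈ g.derivative.roots.toFinset,
          ((((Finset.Icc (-(sd n B x0 : ℤ)) (sd n B x0 : ℤ)).filter fun t : ℤ => ‖g.eval w + (t : ℂ) / s‖ ≤ κ).card : ℕ) : ℝ) ≤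
            2 * κ * s + 1 := by
        intro w _
        refine int_interval s (g.eval w).re κ hκ _ (fun t ht => ?_) hs0
        have h4 := (Finset.mem_filter.1 ht).2
        have h5 := Complex.abs_re_le_norm (g.eval w + (t : ℂ) / s)
        have h6 : (g.eval w + (t : ℂ) / s).re = (g.eval w).re + (t : ℝ) / s := by
          have h7 : (t : ℂ) / s = (((t : ℝ) / s : ℝ) : ℂ) := by push_cast; rfl
          rw [h7, Complex.add_re, Complex.ofReal_re]
        rw [h6] at h5
        exact h5.trans h4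
      refine (Finset.sum_le_sum h3).trans ?_
      rw [Finset.sum_const, nsmul_eq_mul]
      refine mul_le_mul_of_nonneg_right ?_ (by positivity)
      have h4 : g.derivative.roots.toFinset.card ≤ n i := by
        refine (Multiset.toFinset_card_le _).trans ((card_roots' _).trans ?_)
        rw [hg, hd.1]
        omega
      exact_mod_cast h4)
  have hcard : ((Finset.Icc (-(sd n B x0 : ℤ)) (sd n B x0 : ℤ)).card : ℝ) = 2 * s + 1 := by
    rw [Int.card_Icc]
    have h1 : ((sd n B x0 : ℤ) + 1 - -(sd n B x0 : ℤ)).toNat = 2 * s + 1 := by omega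
    rw [h1]
    push_cast
    ring
  rw [hcard] at hfib
  have h1 : (2 * κ * s + 1) ≤ (κ + 1 / B) * (2 * s + 1) := by
    have h2 : 1 ≤ 1 / (B : ℝ) * (2 * s + 1) := by
      rw [div_mul_eq_mul_div, one_mul, le_div_iff₀ (by linarith)]
      linarith
    nlinarith
  have h2 : (0 : ℝ) < 2 * s + 1 := by positivity
  have h3 : (2 * (s : ℝ) + 1) * (Crit n B κ i).card ≤ (2 * s + 1) * (n i * (κ + 1 / B) * (Box n B).card) := by
    calc (2 * (s : ℝ) + 1) * (Crit n B κ i).card ≤ (n i : ℝ) * (2 * κ * s + 1) * (Box n B).card := hfib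
      _ ≤ (n i : ℝ) * ((κ + 1 / B) * (2 * s + 1)) * (Box n B).card := by gcongr
      _ = _ := by ring
  exact le_of_mul_le_mul_left h3 h2

end Pool.Agent.X255.NH
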