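import Pool.Agent.Y890.SM.Inst

/-!
# Change of coordinates on the base of a family with symplectic monodromy
-/

set_option autoImplicit false
set_option linter.unusedSectionVars false

open Matrix

namespace Pool.Agent.X255.NH

open Pool.Agent.Y890.MV
open Pool.Agent.Y890.SM
open Pool.Agent.Y890.SP (Qbar)

variable {X : Type} [Fintype X] {ι : Type} {n : ι → ℕ}

/-- the new coordinates -/
noncomputable def cv (c : X → MvPolynomial X Qbar) (e : X → ℂ) : X → ℂ := fun x => MvPolynomial.aeval e (c x)

/-- composition of a polynomial in the new coordinates with the change of coordinates -/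
noncomputable def cpl (c : X → MvPolynomial X Qbar) : MvPolynomial X ℂ →+* MvPolynomial X ℂ :=
  (MvPolynomial.aeval (fun x => MvPolynomial.map (algebraMap Qbar ℂ) (c x)) : MvPolynomial X ℂ →ₐ[ℂ] MvPolynomial X ℂ)

theorem cpl_eval (c : X → MvPolynomial X Qbar) (e : X → ℂ) (a : MvPolynomial X ℂ) :
    MvPolynomial.eval e (cpl c a) = MvPolynomial.eval (cv c e) a := by
  have h1 : (MvPolynomial.eval e).comp (cpl c) = MvPolynomial.eval (cv c e) := by
    refine MvPolynomial.ringHom_ext (fun r => ?_) fun i => ?_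
    · simp [cpl]
    · simp only [RingHom.comp_apply, cpl, RingHom.coe_coe, MvPolynomial.aeval_X, MvPolynomial.eval_X, cv,
        MvPolynomial.eval_map]
      rfl
  exact RingHom.congr_fun h1 a

theorem evX_cpl (c : X → MvPolynomial X Qbar) (e : X → ℂ) {σ : Type} (Y : σ → ℂ)
    (p : MvPolynomial σ (MvPolynomial X ℂ)) : evX e Y (MvPolynomial.map (cpl c) p) = evX (cv c e) Y p := by
  unfold evX
  rw [MvPolynomial.eval₂_map]
  have h1 : (MvPolynomial.eval e).comp (cpl c) = MvPolynomial.eval (cv c e) := RingHom.ext fun a => cpl_eval c e a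
  rw [h1]

/-- the family over the image of the base under a change of coordinates -/
noncomputable def push (F : SympFam X n) (c : X → MvPolynomial X Qbar) (W : Set (X → ℂ)) (Z : (X → ℂ) → X → ℂ)
    (hW : IsOpen W) (hZan : ∀ i, AnalyticOnNhd ℂ (fun a => Z a i) W) (hZ : ∀ a ∈ W, Z a ∈ F.U ∧ cv c (Z a) = a)
    (hcv : ∀ e ∈ F.U, cv c e ∈ W ∧ Z (cv c e) = e)
    (Q' : ∀ i, Matrix (Fin (n i)) (Fin (n i)) (MvPolynomial X Qbar)) (hQ'a : ∀ i, (Q' i).transpose = -Q' i)
    (hQ' : ∀ e i, (Q' i).map (MvPolynomial.aeval (cv c e)) = (F.Q i).map (MvPolynomial.aeval e)) :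
    SympFam X n where
  U := W
  isOpen := hW
  conn := by
    have h1 : W = cv c '' F.U := by
      ext a
      constructor
      · intro ha
        exact ⟨Z a, (hZ a ha).1, (hZ a ha).2⟩
      · rintro ⟨e, he, rfl⟩
        exact (hcv e he).1
    rw [h1]
    refine F.conn.image _ (Continuous.continuousOn ?_)
    refine continuous_pi fun x => ?_
    have h2 : (fun e => cv c e x) = fun e => MvPolynomial.eval e (MvPolynomial.map (algebraMap Qbar ℂ) (c x)) := by
      funext e
      rw [MvPolynomial.eval_map]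
      rfl
    rw [h2]
    exact MvPolynomial.continuous_eval _
  nonempty := by
    obtain ⟨e, he⟩ := F.nonempty
    exact ⟨_, (hcv e he).1⟩
  P := fun i a => F.P i (Z a)
  an := by
    intro i l j a ha
    have h1 : AnalyticAt ℂ Z a := by
      have h2 : AnalyticAt ℂ (fun a => fun i => Z a i) a := AnalyticAt.pi fun i => hZan i a ha
      exact h2
    exact (F.an i l j _ (hZ a ha).1).comp h1
  w := F.w
  Q := Q'
  Q_alt := hQ'a
  J := F.J
  J_alt := F.J_alt
  J_det := F.J_det
  riemann := by
    intro a ha i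
    obtain ⟨h1, h2⟩ := hZ a ha
    have h3 := F.riemann (Z a) h1 i
    rw [← hQ', h2] at h3
    exact h3
  Γ := F.Γ
  pres := F.pres
  mon := by
    intro γ hγ p hp a ha
    obtain ⟨h1, h2⟩ := hZ a ha
    have h3 := F.mon γ hγ (MvPolynomial.map (cpl c) p) (by
      intro e he
      rw [evX_cpl]
      have h4 := hp _ (hcv e he).1
      rw [(hcv e he).2] at h4
      exact h4) (Z a) h1
    rw [evX_cpl, h2] at h3
    exact h3
  dense := F.dense

end Pool.Agent.X255.NH
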