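import Pool.Agent.X255.NP.Sym
import Pool.Agent.X255.NH.Push

/-!
# Rational points of families with symplectic monodromy, relations over all number fields of bounded degree
-/

set_option autoImplicit false
set_option linter.unusedSectionVars false

open Polynomial Filter Topology NumberField

namespace Pool.Agent.X255.NH

open Pool.Agent.X255.GB
open Pool.Agent.X255.NP
open Pool.Agent.Y890.MV
open Pool.Agent.Y890.SM
open Pool.Agent.Y890.SP (Qbar)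
open Pool.Agent.Y124 (Cov)

section

variable {X σ : Type} [Fintype X] [DecidableEq X] [Fintype σ] [DecidableEq σ]

theorem regY_noY {U : Set (X → ℂ)} (hUo : IsOpen U) (hne : U.Nonempty) {f : σ → (X → ℂ) → ℂ}
    (hreg : RegularM U f) : RegularY U (noY (X := X)) f := by
  intro V w P Q R hVo hVn hVU hw hR hQ hPQ hRw
  have hfun : (fun i => f (Sum.elim id (fun e : Empty => e.elim) i)) = Sum.elim f (noY (X := X)) := by
    funext i
    rcases i with i | e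
    · rfl
    · exact e.elim
  have hev : ∀ x (p : MvPolynomial (σ ⊕ Empty) (MvPolynomial X ℂ)), evM f x (MvPolynomial.rename
      (Sum.elim id (fun e : Empty => e.elim)) p) = evM (Sum.elim f (noY (X := X))) x p := by
    intro x p
    rw [evM_rename, hfun]
  obtain ⟨p, q, hq, hpq⟩ := hreg V w (MvPolynomial.rename (Sum.elim id (fun e : Empty => e.elim)) P)
    (MvPolynomial.rename (Sum.elim id (fun e : Empty => e.elim)) Q) R hVo hVn hVU hw hR
    (fun x hx => by rw [hev]; exact hQ x hx) (fun x hx => by rw [hev, hev]; exact hPQ x hx) hRw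
  have hC : ∀ (x : X → ℂ) (p : MvPolynomial X ℂ), evM (noY (X := X)) x (MvPolynomial.C p) = MvPolynomial.eval x p := by
    intro x p
    rw [evM, MvPolynomial.eval₂_C]
  refine ⟨MvPolynomial.C p, MvPolynomial.C q, ?_, fun x hx => by rw [hC, hC]; exact hpq x hx⟩
  by_contra hcon
  push Not at hcon
  apply hq
  refine poly_zero hUo hne q fun x hx => ?_
  have h1 := hcon x hx
  rwa [hC] at h1

/-- points at which some relation over a number field holds which does not hold on the torsor -/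
def ExcNT {h : Type} [Fintype h] (δ : ℕ) (f : σ → (X → ℂ) → ℂ)
    (Tor : (X → ℂ) → Set (σ → ℂ)) (Lc : Set (X → ℂ)) (m : ℕ) (ξ : h → ℂ) (A T : ℝ) : Set (X → ℚ) :=
  {s | (∀ i, Y120.HtLe ℚ T (s i)) ∧ (fun i => algebraMap ℚ ℂ (s i)) ∈ Lc ∧
    ∃ (E : IntermediateField ℚ ℂ) (_ : FiniteDimensional ℚ E), Module.finrank ℚ E ≤ m ∧
      ∃ c : (σ → Fin (δ + 1)) → h → ℂ, (∀ l i, AE E (T ^ A) (c l i)) ∧
      ∑ l, (∑ i, ξ i * c l i) * ∏ v, f v (fun i => algebraMap ℚ ℂ (s i)) ^ (l v : ℕ) = 0 ∧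
      ¬ ∀ Y ∈ Tor (fun i => algebraMap ℚ ℂ (s i)), ∑ l, (∑ i, ξ i * c l i) * ∏ v, Y v ^ (l v : ℕ) = 0}

theorem excNT_sub {h : Type} [Fintype h] (δ : ℕ) {U : Set (X → ℂ)} {f : σ → (X → ℂ) → ℂ}
    {Tor : (X → ℂ) → Set (σ → ℂ)} (hT : TorM U f Tor) {Lc : Set (X → ℂ)} (hLU : Lc ⊆ U) (m : ℕ) (ξ : h → ℂ)
    (A T : ℝ) : ExcNT δ f Tor Lc m ξ A T ⊆ ExcN δ U (noY (X := X)) f Lc m ξ A T := by
  classical
  rintro s ⟨h1, h2, E, hE, hEm, c, hc1, hc2, hc3⟩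
  refine ⟨h1, h2, E, hE, hEm, fun j => j.elim, c, hc1, hc2, ?_⟩
  rintro ⟨G, hG1, hG2⟩
  apply hc3
  let φ : MvPolynomial (Empty ⊕ X) ℂ →ₐ[ℂ] MvPolynomial X ℂ :=
    MvPolynomial.aeval (Sum.elim (fun e : Empty => e.elim) MvPolynomial.X)
  have hφ : ∀ (x : X → ℂ) p, MvPolynomial.eval x (φ p) = MvPolynomial.eval (pt (noY (X := X)) x) p := by
    intro x p
    have h3 : (MvPolynomial.eval x).comp (φ : MvPolynomial (Empty ⊕ X) ℂ →+* MvPolynomial X ℂ) =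
        MvPolynomial.eval (pt (noY (X := X)) x) := by
      refine MvPolynomial.ringHom_ext (fun r => ?_) fun i => ?_
      · simp [φ]
      · rcases i with j | i
        · exact j.elim
        · simp [φ, pt]
    exact RingHom.congr_fun h3 p
  set P : MvPolynomial σ (MvPolynomial X ℂ) := ∑ l : σ → Fin (δ + 1),
    MvPolynomial.C (φ (G l)) * ∏ y, MvPolynomial.X y ^ (l y : ℕ) with hP
  have hev : ∀ (x : X → ℂ) (Y : σ → ℂ), evX x Y P =
      ∑ l, MvPolynomial.eval (pt (noY (X := X)) x) (G l) * ∏ y, Y y ^ (l y : ℕ) := by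
    intro x Y
    have h6 : evX x Y P = MvPolynomial.eval₂Hom (MvPolynomial.eval x) Y P := rfl
    rw [h6, hP]
    simp only [map_sum, map_mul, map_prod, map_pow, MvPolynomial.eval₂Hom_C, MvPolynomial.eval₂Hom_X', hφ]
  have h6 : ∀ x ∈ U, evM f x P = 0 := by
    intro x hx
    rw [evM_eq, hev]
    exact hG2 x hx
  intro Y hY
  have h7 := hT.inv P h6 _ (hLU h2) Y hY
  rw [hev] at h7
  simp only [hG1] at h7
  exact h7

theorem excNT_cov [Nonempty X] {U : Set (X → ℂ)} {f : σ → (X → ℂ) → ℂ} {Tor : (X → ℂ) → Set (σ → ℂ)}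
    (hU : IsPreconnected U) (hUo : IsOpen U) (hne : U.Nonempty) (hf : ∀ i, AnalyticOnNhd ℂ (f i) U)
    (hT : TorM U f Tor) (Lc : Set (X → ℂ)) (hLc : IsCompact Lc) (hLU : Lc ⊆ U) (δ : ℕ) (h : Type) [Fintype h]
    [DecidableEq h] (m : ℕ) (ξ : h → ℂ) (A ε : ℝ) (hε : 0 < ε) :
    ∃ (D : ℕ) (C T₀ : ℝ), 0 ≤ C ∧ 2 ≤ T₀ ∧ ∀ T : ℝ, T₀ ≤ T →
      Cov D ⌊C * T ^ ε⌋₊ ((fun (s : X → ℚ) i => algebraMap ℚ ℂ (s i)) '' ExcNT δ f Tor Lc m ξ A T) := by
  obtain ⟨D, C, T₀, hC, hT₀, H⟩ := excN_cov (y := noY (X := X)) hU hUo hne (fun j => j.elim) hf (fun j => j.elim)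
    (regY_noY hUo hne (hT.reg hU hf)) Lc hLc hLU δ h m ξ A ε hε
  exact ⟨D, C, T₀, hC, hT₀, fun T hT0 => (H T hT0).mono le_rfl le_rfl
    (Set.image_mono (excNT_sub δ hT hLU m ξ A T))⟩

end

variable {X : Type} [Fintype X] [DecidableEq X] {ι : Type} [Fintype ι] [DecidableEq ι] {n : ι → ℕ}

/-- the relations of degree at most `δ` in each entry, with coefficients `∑ ξ a * c a`, respectively `∑ (2 π i) ^ a * c a`,
where the `c a` are algebraic integers of size at most `R` of a number field of degree at most `m`, hold on the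
torsor -/
def Hold (F : SympFam X n) (δ h m : ℕ) (ξ : Fin h → ℂ) (R : ℝ) (x : X → ℂ) : Prop :=
  ∀ (E : IntermediateField ℚ ℂ) (_ : FiniteDimensional ℚ E), Module.finrank ℚ E ≤ m →
    ∀ c : (Ix n → Fin (δ + 1)) → Fin h → ℂ, (∀ l a, AE E R (c l a)) →
    (∑ l, (∑ a, ξ a * c l a) * ∏ y, F.f y x ^ (l y : ℕ) = 0 →
      ∀ Y ∈ F.Tor x, ∑ l, (∑ a, ξ a * c l a) * ∏ y, Y y ^ (l y : ℕ) = 0) ∧
    (∑ l, (∑ a : Fin h, tpi ^ (a : ℕ) * c l a) * ∏ y, F.f y x ^ (l y : ℕ) = 0 →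
      ∀ μ : ℂ, μ ≠ 0 → ∀ Y : Ix n → ℂ, (∀ i, bl Y i * F.Qx x i * (bl Y i).transpose = μ ^ F.w i • F.Jx i) →
      ∑ l, (∑ a : Fin h, μ ^ (a : ℕ) * c l a) * ∏ y, Y y ^ (l y : ℕ) = 0)

/-- rational points at which relations do not hold on the torsor -/
def ExcH (F : SympFam X n) (δ h m : ℕ) (ξ : Fin h → ℂ) (Lc : Set (X → ℂ)) (A T : ℝ) : Set (X → ℚ) :=
  {s | (∀ i, Y120.HtLe ℚ T (s i)) ∧ (fun i => algebraMap ℚ ℂ (s i)) ∈ Lc ∧
    ¬ Hold F δ h m ξ (T ^ A) fun i => algebraMap ℚ ℂ (s i)}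

theorem excH_sub (F : SympFam X n) (δ h m : ℕ) (ξ : Fin h → ℂ) {Lc : Set (X → ℂ)} (hLc : Lc ⊆ F.U) (A T : ℝ) :
    ExcH F δ h m ξ Lc A T ⊆ ExcNT δ F.f F.Tor Lc m ξ A T ∪
      ExcNT δ F.f F.Tor Lc m (fun a : Fin h => tpi ^ (a : ℕ)) A T := by
  classical
  rintro s ⟨h1, h2, h3⟩
  by_contra hcon
  rw [Set.mem_union, not_or] at hcon
  obtain ⟨h4, h5⟩ := hcon
  apply h3
  intro E hE hEm c hc
  have key : ∀ w : Fin h → ℂ, s ∉ ExcNT δ F.f F.Tor Lc m w A T →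
      ∑ l, (∑ a, w a * c l a) * ∏ y, F.f y (fun i => algebraMap ℚ ℂ (s i)) ^ (l y : ℕ) = 0 →
      ∀ Y ∈ F.Tor (fun i => algebraMap ℚ ℂ (s i)), ∑ l, (∑ a, w a * c l a) * ∏ y, Y y ^ (l y : ℕ) = 0 := by
    intro w hw hw0
    by_contra hne
    exact hw ⟨h1, h2, E, hE, hEm, c, hc, hw0, hne⟩
  refine ⟨key ξ h4, fun h6 μ hμ Y hY => ?_⟩
  have : NumberField E := ⟨⟩
  have h7 : (fun j => (algebraMap E ℂ) ((algebraMap ℚ E) (s j))) = fun i => algebraMap ℚ ℂ (s i) := by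
    funext j
    exact (IsScalarTower.algebraMap_apply ℚ E ℂ (s j)).symm
  have h8 := F.full (K := E) (algebraMap E ℂ) (fun j => algebraMap ℚ E (s j)) (by
    rw [h7]
    exact hLc h2) (fun l a => (⟨c l a, (hc l a).1⟩ : E)) (by
    rw [h7]
    exact key (fun a => tpi ^ (a : ℕ)) h5 h6) hμ Y (by
    rw [h7]
    exact hY)
  exact h8

/-- **Relations over all number fields of bounded degree, at rational points.** -/
theorem excH_cov [Nonempty X] (F : SympFam X n) (Lc : Set (X → ℂ)) (hLc : IsCompact Lc) (hLU : Lc ⊆ F.U)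
    (δ h m : ℕ) (ξ : Fin h → ℂ) (A ε : ℝ) (hε : 0 < ε) :
    ∃ (D : ℕ) (C T₀ : ℝ), 0 ≤ C ∧ 2 ≤ T₀ ∧ ∀ T : ℝ, T₀ ≤ T →
      Cov D ⌊C * T ^ ε⌋₊ ((fun (s : X → ℚ) i => algebraMap ℚ ℂ (s i)) '' ExcH F δ h m ξ Lc A T) := by
  classical
  have hf : ∀ q, AnalyticOnNhd ℂ (F.f q) F.U := fun q => F.an q.1 q.2.1 q.2.2
  obtain ⟨D, C, T₀, hC, hT₀, H⟩ := excNT_cov F.conn F.isOpen F.nonempty hf F.tor Lc hLc hLU δ (Fin h) m ξ A ε hε
  obtain ⟨D', C', T₀', hC', hT₀', H'⟩ := excNT_cov F.conn F.isOpen F.nonempty hf F.tor Lc hLc hLU δ (Fin h) m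
    (fun a : Fin h => tpi ^ (a : ℕ)) A ε hε
  refine ⟨max D D', C + C', max T₀ T₀', by positivity, le_max_of_le_left hT₀, fun T hT => ?_⟩
  have hT1 := (le_max_left _ _).trans hT
  have hT2 := (le_max_right _ _).trans hT
  have hTp : 0 < T := by linarith
  have h1 := ((H T hT1).mono (le_max_left D D') le_rfl (Set.Subset.refl _)).union
    ((H' T hT2).mono (le_max_right D D') le_rfl (Set.Subset.refl _))
  rw [← Set.image_union] at h1
  refine h1.mono le_rfl ?_ (Set.image_mono (excH_sub F δ h m ξ hLU A T))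
  have h2 : 0 ≤ C * T ^ ε := by positivity
  have h3 : 0 ≤ C' * T ^ ε := by positivity
  apply Nat.le_floor
  push_cast
  have h4 := Nat.floor_le h2
  have h5 := Nat.floor_le h3
  nlinarith

end Pool.Agent.X255.NH
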