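import Pool.Agent.X255.NP.Co

/-!
# Directions in which finitely many complex numbers are separated
-/

set_option autoImplicit false
set_option linter.unusedSectionVars false

open Polynomial

namespace Pool.Agent.X255.NH

open Pool.Agent.X255.NP

theorem dir_aux {lam lam' v : ℂ} (h : ‖lam‖ = 1) (h' : ‖lam'‖ = 1) {s : ℝ} (hs : |(lam * v).re| < s * ‖v‖)
    (hs' : |(lam' * v).re| < s * ‖v‖) : ‖lam ^ 2 - lam' ^ 2‖ < 4 * s := by
  have hv : 0 < ‖v‖ := by
    rcases (norm_nonneg v).eq_or_lt with h0 | h0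
    · rw [← h0, mul_zero] at hs
      exact absurd hs (not_lt.2 (abs_nonneg _))
    · exact h0
  have key : ∀ a : ℂ, a ^ 2 + (‖a‖ : ℂ) ^ 2 = 2 * (a.re : ℂ) * a := by
    intro a
    have h1 : ((‖a‖ : ℂ)) ^ 2 = a * (starRingEnd ℂ) a := by
      rw [Complex.mul_conj, Complex.normSq_eq_norm_sq]
      push_cast
      ring
    have h2 : (2 * (a.re : ℂ)) = a + (starRingEnd ℂ) a := by
      rw [Complex.add_conj]
      push_cast
      ring
    rw [h1, h2]
    ring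
  have h1 := key (lam * v)
  have h2 := key (lam' * v)
  rw [norm_mul, h, one_mul] at h1
  rw [norm_mul, h', one_mul] at h2
  have h3 : (lam ^ 2 - lam' ^ 2) * v ^ 2 = 2 * ((lam * v).re : ℂ) * (lam * v) - 2 * ((lam' * v).re : ℂ) * (lam' * v) := by
    linear_combination h1 - h2
  have h4 := congrArg norm h3
  rw [norm_mul, norm_pow] at h4
  have h5 : ∀ (μ : ℂ), ‖μ‖ = 1 → ‖2 * ((μ * v).re : ℂ) * (μ * v)‖ = 2 * |(μ * v).re| * ‖v‖ := by
    intro μ hμ
    rw [norm_mul, norm_mul, norm_mul, hμ, one_mul, Complex.norm_real, Real.norm_eq_abs, Complex.norm_ofNat]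
  have h6 : ‖lam ^ 2 - lam' ^ 2‖ * ‖v‖ ^ 2 ≤ 2 * |(lam * v).re| * ‖v‖ + 2 * |(lam' * v).re| * ‖v‖ := by
    rw [h4]
    refine (norm_sub_le _ _).trans ?_
    rw [h5 _ h, h5 _ h']
  have h7 : ‖lam ^ 2 - lam' ^ 2‖ * ‖v‖ ^ 2 < (4 * s) * ‖v‖ ^ 2 := by nlinarith
  exact lt_of_mul_lt_mul_right h7 (by positivity)

/-- **Good directions.** -/
theorem exists_dir {M : ℕ} (hM : 0 < M) (lam : Fin M → ℂ) (h1 : ∀ q, ‖lam q‖ = 1)
    (hsq : Function.Injective fun q => lam q ^ 2) :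
    ∃ s : ℝ, 0 < s ∧ ∀ (A : Type) [Fintype A] (v : A → ℂ), Fintype.card A < M →
      ∃ q, ∀ a, s * ‖v a‖ ≤ |(lam q * v a).re| := by
  classical
  obtain ⟨s, hs, hs'⟩ : ∃ s : ℝ, 0 < s ∧ ∀ q q' : Fin M, q ≠ q' → 4 * s ≤ ‖lam q ^ 2 - lam q' ^ 2‖ := by
    have : Nonempty (Fin M × Fin M) := ⟨(⟨0, hM⟩, ⟨0, hM⟩)⟩
    have h2 : ∀ p : Fin M × Fin M, ∃ r : ℝ, 0 < r ∧ (p.1 ≠ p.2 → r ≤ ‖lam p.1 ^ 2 - lam p.2 ^ 2‖) := by
      intro p
      by_cases hp : p.1 = p.2
      · exact ⟨1, one_pos, fun h => absurd hp h⟩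
      · refine ⟨‖lam p.1 ^ 2 - lam p.2 ^ 2‖, ?_, fun _ => le_rfl⟩
        rw [norm_pos_iff, sub_ne_zero]
        exact fun h => hp (hsq h)
    choose r hr hr' using h2
    obtain ⟨p0, hp0⟩ := Finite.exists_min r
    refine ⟨r p0 / 4, by linarith [hr p0], fun q q' hq => ?_⟩
    have h3 := hr' (q, q') hq
    have h4 := hp0 (q, q')
    simp only at h3
    linarith
  refine ⟨s, hs, fun A _ v hA => ?_⟩
  by_contra hcon
  push Not at hcon
  choose a ha using hcon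
  have hinj : Function.Injective a := by
    intro q q' hq
    by_contra hne
    have h2 := ha q
    have h3 := ha q'
    rw [← hq] at h3
    have h4 := dir_aux (h1 q) (h1 q') h2 h3
    have h5 := hs' q q' hne
    linarith
  have h2 := Fintype.card_le_of_injective a hinj
  rw [Fintype.card_fin] at h2
  omega

/-- roots of unity with distinct fourth powers -/
theorem exists_units (M : ℕ) (hM : 0 < M) : ∃ mu : Fin M → ℂ, (∀ q, mu q ^ (4 * M) = 1) ∧
    Function.Injective fun q => (mu q ^ 2) ^ 2 := by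
  have hp := Complex.isPrimitiveRoot_exp (4 * M) (by omega)
  set ζ := Complex.exp (2 * Real.pi * Complex.I / ((4 * M : ℕ) : ℂ)) with hζ
  refine ⟨fun q => ζ ^ (q : ℕ), fun q => ?_, fun q q' h => ?_⟩
  · rw [← pow_mul, mul_comm, pow_mul, hp.pow_eq_one, one_pow]
  · simp only [← pow_mul] at h
    have h2 := hp.pow_inj (by have := q.2; omega) (by have := q'.2; omega) h
    exact Fin.ext (by omega)

theorem norm_unit {N : ℕ} (hN : 0 < N) {mu : ℂ} (h : mu ^ N = 1) : ‖mu‖ = 1 :=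
  Complex.norm_eq_one_of_pow_eq_one h hN.ne'

/-- radicals of natural numbers -/
theorem rad_field {N : ℕ} (hN : 0 < N) {b : ℕ} (hb : 1 ≤ b) {τ : ℂ} (h : τ ^ N = b) :
    FiniteDimensional ℚ (IntermediateField.adjoin ℚ {τ}) ∧ Module.finrank ℚ (IntermediateField.adjoin ℚ {τ}) ≤ N ∧
      ∀ (E : IntermediateField ℚ ℂ) [FiniteDimensional ℚ E], τ ∈ E → AE E b τ := by
  have hm : (X ^ N - C (b : ℚ) : ℚ[X]).Monic := monic_X_pow_sub_C _ hN.ne'
  have h1 : aeval τ (X ^ N - C (b : ℚ) : ℚ[X]) = 0 := by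
    rw [map_sub, map_pow, aeval_X, aeval_C, h]
    simp
  have hint : IsIntegral ℚ τ := ⟨_, hm, h1⟩
  refine ⟨IntermediateField.adjoin.finiteDimensional hint, ?_, ?_⟩
  · rw [IntermediateField.adjoin.finrank hint]
    have h2 := minpoly.degree_le_of_ne_zero ℚ τ hm.ne_zero h1
    have h3 := natDegree_le_natDegree h2
    rwa [natDegree_X_pow_sub_C] at h3
  · intro E _ hE
    have hi : IsIntegral ℤ τ := by
      refine IsIntegral.of_pow hN ?_
      rw [h]
      exact isIntegral_algebraMap (R := ℤ) (A := ℂ) (x := (b : ℤ)) |> fun h => by simpa using h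
    refine ⟨hE, AI.of_emb E hE hi fun σ => ?_⟩
    have h2 : (σ ⟨τ, hE⟩) ^ N = b := by
      rw [← map_pow]
      have h3 : (⟨τ, hE⟩ : E) ^ N = (b : E) := Subtype.ext (by simpa using h)
      rw [h3, map_natCast]
    have h3 := congrArg norm h2
    rw [norm_pow, Complex.norm_natCast] at h3
    by_contra hcon
    push Not at hcon
    have hb' : (1 : ℝ) ≤ b := by exact_mod_cast hb
    have h4 : (b : ℝ) < ‖σ ⟨τ, hE⟩‖ ^ N := by
      calc (b : ℝ) < ‖σ ⟨τ, hE⟩‖ := hcon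
        _ ≤ ‖σ ⟨τ, hE⟩‖ ^ N := le_self_pow₀ (by linarith) hN.ne'
    linarith

end Pool.Agent.X255.NH
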