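import Pool.Agent.X255.NH.Box
import Pool.Agent.X255.NP.Count

/-!
# Almost all tuples of hyperelliptic curves
-/

set_option autoImplicit false
set_option linter.unusedSectionVars false

open Polynomial Filter Topology NumberField

namespace Pool.Agent.X255.NH

open Pool.Agent.X255.NP
open Pool.Agent.Y890.SM
open Pool.Agent.Y890.SP (Qbar exists_omega)
open Pool.Agent.Y124 (Cov)

variable {ι : Type} [Fintype ι] [DecidableEq ι]

open scoped Classical in
/-- the exceptional tuples in a direction -/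
noncomputable def Exc (n : ι → ℕ) (hn : ∀ i, Even (n i)) (lamQ : Qbar) (hlam : lamQ ≠ 0) (δ : ℝ) (k m : ℕ)
    (ξ : Fin k → ℂ) (A : ℝ) (N₁ B : ℕ) : Finset ((Σ i, Fin (n i + 1)) → ℤ) :=
  (Box n B).filter fun c => nc n B c ∈ Lc n (algebraMap Qbar ℂ lamQ) δ ∧
    ¬ Hold (hypL n hn lamQ hlam) k k m ξ (((B : ℝ) ^ N₁) ^ A) (nc n B c)

theorem exc_count [Nonempty ι] (n : ι → ℕ) (hn : ∀ i, Even (n i)) (lamQ : Qbar) (hlam : lamQ ≠ 0) {δ : ℝ} (hδ : 0 < δ)
    (k m : ℕ) (ξ : Fin k → ℂ) (A : ℝ) (N₁ : ℕ) (hN : ∀ i, n i + 1 ≤ N₁) : ∃ (C : ℝ) (B₀ : ℕ), 0 ≤ C ∧ ∀ B, B₀ ≤ B →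
      ((Exc n hn lamQ hlam δ k m ξ A N₁ B).card : ℝ) * √B ≤ C * (Box n B).card := by
  classical
  obtain ⟨i0⟩ := ‹Nonempty ι›
  have hN1 : 1 ≤ N₁ := le_trans (Nat.le_add_left 1 (n i0)) (hN i0)
  have hN1' : (0 : ℝ) < N₁ := by exact_mod_cast hN1
  haveI : Nonempty (Σ i, Fin (n i + 1)) := ⟨⟨i0, 0⟩⟩
  have hLU : Lc n (algebraMap Qbar ℂ lamQ) δ ⊆ (hypL n hn lamQ hlam).U := Lc_sub hδ
  obtain ⟨D, C, T₀, hC, hT₀, H⟩ := excH_cov (hypL n hn lamQ hlam) (Lc n (algebraMap Qbar ℂ lamQ) δ) (Lc_compact _ _ _)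
    hLU k k m ξ A (1 / (2 * N₁)) (by positivity)
  refine ⟨C * D, max 1 ⌈T₀⌉₊, by positivity, fun B hB => ?_⟩
  have hB1 : 1 ≤ B := (le_max_left _ _).trans hB
  have hBr : (1 : ℝ) ≤ B := by exact_mod_cast hB1
  have hBT : T₀ ≤ B := Nat.ceil_le.1 ((le_max_right _ _).trans hB)
  have hT1 : (B : ℝ) ≤ (B : ℝ) ^ N₁ := le_self_pow₀ hBr (by omega)
  have hcov := H ((B : ℝ) ^ N₁) (hBT.trans hT1)
  have hsd : ∀ q : Σ i, Fin (n i + 1), B ≤ sd n B q ∧ (sd n B q : ℝ) ≤ (B : ℝ) ^ N₁ := by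
    intro q
    have h2 := q.2.2
    constructor
    · exact Nat.le_self_pow (by omega) B
    · rw [sd]
      push_cast
      refine pow_le_pow_right₀ hBr ?_
      have := hN q.1
      omega
  have hcard : ∀ q : Σ i, Fin (n i + 1), 2 * B + 1 ≤ (Finset.Icc (-(sd n B q : ℤ)) (sd n B q : ℤ)).card := by
    intro q
    rw [Int.card_Icc]
    have := (hsd q).1
    omega
  have hE : Exc n hn lamQ hlam δ k m ξ A N₁ B ⊆
      Fintype.piFinset fun q => Finset.Icc (-(sd n B q : ℤ)) (sd n B q : ℤ) := by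
    unfold Exc
    exact Finset.filter_subset _ _
  have key := cov_box (fun q => Finset.Icc (-(sd n B q : ℤ)) (sd n B q : ℤ)) (fun q => (sd n B q : ℂ))
    (fun q => by exact_mod_cast (sd_pos hB1 q).ne') (2 * B + 1) hcard (Exc n hn lamQ hlam δ k m ξ A N₁ B) hE
    (hcov.mono le_rfl le_rfl (by
      rintro _ ⟨c, hc, rfl⟩
      rw [Finset.mem_coe] at hc
      unfold Exc at hc
      rw [Finset.mem_filter] at hc
      obtain ⟨hc1, hc2, hc3⟩ := hc
      have hnc : (fun q => algebraMap ℚ ℂ ((c q : ℚ) / (((sd n B q : ℕ) : ℤ) : ℚ))) = nc n B c := by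
        funext q
        rw [nc, map_div₀]
        simp
      refine ⟨fun q => (c q : ℚ) / (((sd n B q : ℕ) : ℤ) : ℚ), ⟨fun q => ?_, ?_, ?_⟩, hnc⟩
      · have h1 := mem_Box.1 hc1 q
        have h2 : |(c q : ℝ)| ≤ (sd n B q : ℝ) := by exact_mod_cast h1
        refine HtLe_int _ _ ?_ (h2.trans (hsd q).2) ?_
        · exact_mod_cast (sd_pos hB1 q).ne'
        · push_cast
          rw [abs_of_nonneg (by positivity)]
          exact (hsd q).2
      · change (fun q => algebraMap ℚ ℂ ((c q : ℚ) / (((sd n B q : ℕ) : ℤ) : ℚ))) ∈ _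
        rw [hnc]
        exact hc2
      · change ¬ Hold (hypL n hn lamQ hlam) k k m ξ (((B : ℝ) ^ N₁) ^ A)
          (fun q => algebraMap ℚ ℂ ((c q : ℚ) / (((sd n B q : ℕ) : ℤ) : ℚ)))
        rw [hnc]
        exact hc3))
  -- conclusion
  have hTε : ((B : ℝ) ^ N₁) ^ (1 / (2 * N₁) : ℝ) = √B := by
    rw [← Real.rpow_natCast, ← Real.rpow_mul (by positivity), Real.sqrt_eq_rpow]
    congr 1
    field_simp
  rw [hTε] at key
  have hsq : 0 ≤ √(B : ℝ) := Real.sqrt_nonneg _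
  have hfl : ((⌊C * √B⌋₊ : ℕ) : ℝ) ≤ C * √B := Nat.floor_le (by positivity)
  have key' : (2 * (B : ℝ) + 1) * (Exc n hn lamQ hlam δ k m ξ A N₁ B).card ≤
      (C * √B) * (D * (Box n B).card) := by
    have h1 : (((2 * B + 1) * (Exc n hn lamQ hlam δ k m ξ A N₁ B).card : ℕ) : ℝ) ≤
        ((⌊C * √B⌋₊ * (D * (Box n B).card) : ℕ) : ℝ) := by exact_mod_cast key
    push_cast at h1
    exact h1.trans (mul_le_mul_of_nonneg_right hfl (by positivity))
  have h2 : √(B : ℝ) * √B = B := Real.mul_self_sqrt (by positivity)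
  have h3 : (2 * (B : ℝ) + 1) * ((Exc n hn lamQ hlam δ k m ξ A N₁ B).card * √B) ≤
      (2 * B + 1) * (C * D * (Box n B).card) := by
    calc (2 * (B : ℝ) + 1) * ((Exc n hn lamQ hlam δ k m ξ A N₁ B).card * √B)
        = ((2 * (B : ℝ) + 1) * (Exc n hn lamQ hlam δ k m ξ A N₁ B).card) * √B := by ring
      _ ≤ ((C * √B) * (D * (Box n B).card)) * √B := mul_le_mul_of_nonneg_right key' hsq
      _ = (√B * √B) * (C * D * (Box n B).card) := by ring
      _ = B * (C * D * (Box n B).card) := by rw [h2]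
      _ ≤ (2 * B + 1) * (C * D * (Box n B).card) := mul_le_mul_of_nonneg_right (by linarith) (by positivity)
  exact le_of_mul_le_mul_left h3 (by positivity)

open scoped Classical in
theorem count_k [Nonempty ι] (n : ι → ℕ) (hn : ∀ i, Even (n i)) (ξ : ℕ → ℂ) (k : ℕ) (hk : 1 ≤ k) :
    ∃ B₀ : ℕ, ∀ B, B₀ ≤ B →
      (k : ℝ) * ((Box n B).filter fun c => ¬ Good n ξ k B c).card ≤ (Box n B).card := by
  set M := Fintype.card (Σ i, Fin (n i + 1) × Fin (n i + 1)) + 1 with hM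
  have hM0 : 0 < M := Nat.succ_pos _
  have hk' : (1 : ℝ) ≤ k := by exact_mod_cast hk
  obtain ⟨mu, hmu1, hmu2⟩ := exists_units M hM0
  have hmun : ∀ q, ‖mu q‖ = 1 := fun q => norm_unit (by omega) (hmu1 q)
  have hmu0 : ∀ q, mu q ≠ 0 := by
    intro q h0
    have := hmun q
    rw [h0, norm_zero] at this
    exact zero_ne_one this
  obtain ⟨s₀, hs₀, hdir⟩ := exists_dir hM0 (fun q => mu q ^ 2) (fun q => by rw [norm_pow, hmun, one_pow]) hmu2
  have hlamex : ∀ q, ∃ x : Qbar, algebraMap Qbar ℂ x = mu q ^ 2 := by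
    intro q
    refine ⟨⟨mu q ^ 2, ?_⟩, rfl⟩
    rw [mem_algebraicClosure_iff]
    have h1 : IsAlgebraic ℚ (mu q ^ (4 * M)) := by
      rw [hmu1]
      exact isAlgebraic_one
    exact (h1.of_pow (by omega)).pow 2
  choose lamQ hlamQ using hlamex
  have hlam0 : ∀ q, lamQ q ≠ 0 := by
    intro q h0
    have h1 := hlamQ q
    rw [h0, map_zero] at h1
    exact pow_ne_zero 2 (hmu0 q) h1.symm
  set Sn : ℕ := ∑ i, n i with hSn
  have hSn0 : (0 : ℝ) ≤ Sn := Nat.cast_nonneg _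
  set κ : ℝ := 1 / (4 * k * (Sn + 1)) with hκ
  have hκ0 : 0 < κ := by positivity
  obtain ⟨η, hη, hηc⟩ : ∃ η : ℝ, 0 < η ∧ ∀ i, ∀ z : Fin (n i + 1) → ℂ, (∀ r, ‖co z r‖ ≤ 1) →
      ∀ r s, r ≠ s → ‖z r - z s‖ < η → ∃ w, (mp (co z)).derivative.eval w = 0 ∧ ‖(mp (co z)).eval w‖ ≤ κ := by
    choose η hη hηc using fun i => exists_crit (n i + 1) hκ0
    obtain ⟨i0, hi0⟩ := Finite.exists_min η
    exact ⟨η i0, hη i0, fun i z hz r s hrs h => hηc i z hz r s hrs (h.trans_le (hi0 i))⟩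
  set aN : ℕ := k + 2 * M * ∑ v : Ix n, 3 * n v.1 * k with haN
  set N₁ : ℕ := ∑ i, (n i + 1) with hN₁
  have hN : ∀ i, n i + 1 ≤ N₁ := fun i =>
    Finset.single_le_sum (f := fun i => n i + 1) (fun _ _ => Nat.zero_le _) (Finset.mem_univ i)
  have hN1 : 1 ≤ N₁ := by
    obtain ⟨i0⟩ := ‹Nonempty ι›
    exact le_trans (Nat.le_add_left 1 (n i0)) (hN i0)
  have hδ : 0 < s₀ * η := mul_pos hs₀ hη
  choose C Bq hC hBq using fun q => exc_count n hn (lamQ q) (hlam0 q) hδ k (k * (4 * M)) (fun b => ξ b) (aN : ℝ) N₁ hN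
  set SC : ℝ := ∑ q, C q with hSC
  have hSC0 : 0 ≤ SC := Finset.sum_nonneg fun q _ => hC q
  refine ⟨1 + (∑ q, Bq q) + ⌈(4 * k * (Sn + 1) : ℝ)⌉₊ + ⌈(4 * k * SC) ^ 2⌉₊, fun B hB => ?_⟩
  have hB1 : 1 ≤ B := by omega
  have hBr : (1 : ℝ) ≤ B := by exact_mod_cast hB1
  have hBpos : (0 : ℝ) < B := by linarith
  have hB2 : (4 * k * (Sn + 1) : ℝ) ≤ B := Nat.ceil_le.1 (by omega)
  have hB3 : (4 * k * SC) ^ 2 ≤ (B : ℝ) := Nat.ceil_le.1 (by omega)
  have hBqB : ∀ q, Bq q ≤ B := by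
    intro q
    have h1 : Bq q ≤ ∑ q, Bq q := Finset.single_le_sum (f := Bq) (fun _ _ => Nat.zero_le _) (Finset.mem_univ q)
    omega
  have hsqrt : 4 * k * SC ≤ √(B : ℝ) := Real.le_sqrt_of_sq_le hB3
  have hsqpos : 0 < √(B : ℝ) := Real.sqrt_pos.2 hBpos
  -- covering
  have hsub : ((Box n B).filter fun c => ¬ Good n ξ k B c) ⊆ (Finset.univ.biUnion fun i => Crit n B κ i) ∪
      Finset.univ.biUnion fun q => Exc n hn (lamQ q) (hlam0 q) (s₀ * η) k (k * (4 * M)) (fun b => ξ b) (aN : ℝ) N₁ B := by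
    intro c hc
    rw [Finset.mem_filter] at hc
    obtain ⟨hc1, hc2⟩ := hc
    by_contra hcon
    rw [Finset.mem_union, not_or, Finset.mem_biUnion, Finset.mem_biUnion] at hcon
    push Not at hcon
    obtain ⟨h1, h2⟩ := hcon
    apply hc2
    obtain ⟨q, hq⟩ := exists_Lc (fun q => mu q ^ 2) hdir (Nat.lt_succ_self _) hs₀ hη (nc n B c) (nc_le hB1 hc1) (by
      intro i z hz r s hrs
      by_contra hlt
      push Not at hlt
      obtain ⟨w, hw1, hw2⟩ := hηc i z (fun r => by rw [hz]; exact nc_le hB1 hc1 _) r s hrs hlt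
      rw [hz] at hw1 hw2
      refine h1 i (Finset.mem_univ _) ?_
      unfold Crit
      exact Finset.mem_filter.2 ⟨hc1, w, hw1, hw2⟩)
    have h3 := h2 q (Finset.mem_univ _)
    unfold Exc at h3
    rw [Finset.mem_filter, hlamQ] at h3
    push Not at h3
    have hold := h3 hc1 hq
    obtain ⟨z', hz', hz''⟩ := hq
    refine good_of hn ξ hM0 hB1 c (lamQ q) (hlam0 q) (mu q) (hmu1 q) (hlamQ q) z' ?_ ?_ (((B : ℝ) ^ N₁) ^ (aN : ℝ)) ?_
      hold
    · intro i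
      rw [← hz'']
      rfl
    · intro i
      rw [hlamQ]
      exact Rt_ord hδ hz' i
    · rw [Real.rpow_natCast]
      exact pow_le_pow_left₀ (by positivity) (le_self_pow₀ hBr (by omega)) _
  have hcard := Finset.card_le_card hsub
  have hcard2 := hcard.trans (Finset.card_union_le _ _)
  have hcard3 : (((Box n B).filter fun c => ¬ Good n ξ k B c).card : ℝ) ≤
      ∑ i, ((Crit n B κ i).card : ℝ) +
      ∑ q, ((Exc n hn (lamQ q) (hlam0 q) (s₀ * η) k (k * (4 * M)) (fun b => ξ b) (aN : ℝ) N₁ B).card : ℝ) := by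
    have h1 : ((Box n B).filter fun c => ¬ Good n ξ k B c).card ≤ ∑ i, (Crit n B κ i).card +
        ∑ q, (Exc n hn (lamQ q) (hlam0 q) (s₀ * η) k (k * (4 * M)) (fun b => ξ b) (aN : ℝ) N₁ B).card :=
      hcard2.trans (Nat.add_le_add Finset.card_biUnion_le Finset.card_biUnion_le)
    exact_mod_cast h1
  set Bx : ℝ := ((Box n B).card : ℝ) with hBx
  have hBx0 : 0 ≤ Bx := Nat.cast_nonneg _
  have hpart1 : ∑ i, ((Crit n B κ i).card : ℝ) ≤ Sn * (κ + 1 / B) * Bx := by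
    refine (Finset.sum_le_sum fun i _ => crit_count hB1 hκ0.le i).trans ?_
    rw [← Finset.sum_mul, ← Finset.sum_mul, hSn]
    push_cast
    exact le_rfl
  have hpart2 : (∑ q, ((Exc n hn (lamQ q) (hlam0 q) (s₀ * η) k (k * (4 * M)) (fun b => ξ b) (aN : ℝ) N₁ B).card : ℝ)) *
      √B ≤ SC * Bx := by
    rw [Finset.sum_mul, hSC, Finset.sum_mul]
    exact Finset.sum_le_sum fun q _ => hBq q B (hBqB q)
  set Ex : ℝ := ∑ q, ((Exc n hn (lamQ q) (hlam0 q) (s₀ * η) k (k * (4 * M)) (fun b => ξ b) (aN : ℝ) N₁ B).card : ℝ)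
    with hEx
  have hk4 : (0 : ℝ) < 4 * k := by positivity
  have hpart2' : 4 * k * Ex ≤ Bx := by
    have h1 : (4 * k * Ex) * √B ≤ Bx * √B := by
      calc (4 * k * Ex) * √B = 4 * k * (Ex * √B) := by ring
        _ ≤ 4 * k * (SC * Bx) := mul_le_mul_of_nonneg_left hpart2 hk4.le
        _ = (4 * k * SC) * Bx := by ring
        _ ≤ √B * Bx := mul_le_mul_of_nonneg_right hsqrt hBx0
        _ = Bx * √B := mul_comm _ _
    exact le_of_mul_le_mul_right h1 hsqpos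
  have hpart1' : 4 * k * (Sn * (κ + 1 / B) * Bx) ≤ 2 * Bx := by
    have h1 : 4 * k * (Sn * κ) ≤ 1 := by
      have h2 : 4 * k * (Sn * κ) = (4 * k * Sn) / (4 * k * (Sn + 1)) := by
        rw [hκ]
        ring
      rw [h2, div_le_one (by positivity)]
      nlinarith
    have h2 : 4 * k * (Sn * (1 / B)) ≤ (1 : ℝ) := by
      have h3 : 4 * k * (Sn * (1 / (B : ℝ))) = (4 * k * Sn) / B := by ring
      rw [h3, div_le_one hBpos]
      nlinarith
    have h3 : 4 * k * (Sn * (κ + 1 / B) * Bx) = (4 * k * (Sn * κ) + 4 * k * (Sn * (1 / B))) * Bx := by ring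
    rw [h3]
    nlinarith
  have hfin : 4 * (k * (((Box n B).filter fun c => ¬ Good n ξ k B c).card : ℝ)) ≤ 4 * Bx := by
    have h1 : 4 * k * (((Box n B).filter fun c => ¬ Good n ξ k B c).card : ℝ) ≤
        4 * k * (Sn * (κ + 1 / B) * Bx) + 4 * k * Ex := by
      rw [← mul_add]
      refine mul_le_mul_of_nonneg_left ?_ hk4.le
      exact hcard3.trans (add_le_add hpart1 le_rfl)
    linarith
  linarith

open scoped Classical in
/-- **Almost all tuples of hyperelliptic curves are generic.** -/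
theorem almost_all [Nonempty ι] (n : ι → ℕ) (hn : ∀ i, Even (n i)) (ξ : ℕ → ℂ) :
    ∃ ω : ℕ → ℕ, Tendsto ω atTop atTop ∧ Monotone ω ∧ ∀ B,
      ω B * ((Box n B).filter fun c => ¬ Good n ξ (ω B) B c).card ≤ (Box n B).card := by
  obtain ⟨ω, T₀, h1, h2, h3⟩ := exists_omega
    (fun k T => (k : ℝ) * ((Box n ⌊T⌋₊).filter fun c => ¬ Good n ξ k ⌊T⌋₊ c).card ≤ (Box n ⌊T⌋₊).card) (by
      intro k
      obtain ⟨B₀, hB₀⟩ := count_k n hn ξ (k + 1) (Nat.succ_pos k)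
      exact ⟨B₀, fun T hT => hB₀ _ (Nat.le_floor hT)⟩)
  refine ⟨fun B => if T₀ ≤ B then ω B else 0, ?_, ?_, ?_⟩
  · have h4 : (fun B : ℕ => if T₀ ≤ B then ω B else 0) =ᶠ[atTop] fun B : ℕ => ω B := by
      filter_upwards [eventually_ge_atTop ⌈T₀⌉₊] with B hB
      rw [if_pos (Nat.ceil_le.1 hB)]
    exact Tendsto.congr' h4.symm (h1.comp tendsto_natCast_atTop_atTop)
  · intro B B' hBB
    have hc : (B : ℝ) ≤ B' := by exact_mod_cast hBB
    by_cases h4 : T₀ ≤ (B : ℝ)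
    · simp only [if_pos h4, if_pos (h4.trans hc)]
      exact h2 hc
    · simp only [if_neg h4]
      exact Nat.zero_le _
  · intro B
    by_cases h4 : T₀ ≤ (B : ℝ)
    · simp only [if_pos h4]
      have h5 := (h3 B h4).2
      simp only [Nat.floor_natCast] at h5
      exact_mod_cast h5
    · simp only [if_neg h4, zero_mul]
      exact Nat.zero_le _

end Pool.Agent.X255.NH
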