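import Pool.Agent.X255.NH.Inv

/-!
# Periods as path integrals
-/

set_option autoImplicit false
set_option linter.unusedSectionVars false

open Polynomial Filter Topology MeasureTheory

namespace Pool.Agent.X255.NH

open Pool.Agent.Y118.HP (perC fac ker seg)
open Pool.Agent.Y890.HE

/-- the segment from `z l` to `z (l + 1)` -/
noncomputable def sg {n : ℕ} (z : Fin (n + 1) → ℂ) (l : Fin n) (θ : ℝ) : ℂ :=
  z l.castSucc + (z l.succ - z l.castSucc) * (Real.sin θ : ℂ) ^ 2

/-- the derivative of `sg` -/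
noncomputable def dsg {n : ℕ} (z : Fin (n + 1) → ℂ) (l : Fin n) (θ : ℝ) : ℂ :=
  2 * (z l.succ - z l.castSucc) * (Real.sin θ : ℂ) * (Real.cos θ : ℂ)

/-- `P l j` is the integral of `x ^ j dx / y` over a lift of the segment from `z l` to `z (l + 1)` to the curve
`y ^ 2 = (-1) ^ (n - l) * ∏ (x - z r)` -/
def IsPer {n : ℕ} (z : Fin (n + 1) → ℂ) (P : Matrix (Fin n) (Fin n) ℂ) : Prop :=
  ∀ l : Fin n, ∃ y : ℝ → ℂ, ContinuousOn y (Set.Icc 0 (Real.pi / 2)) ∧
    (∀ θ ∈ Set.Icc (0 : ℝ) (Real.pi / 2), y θ ^ 2 = (-1) ^ (n - (l : ℕ)) * ∏ r, (sg z l θ - z r)) ∧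
    ∀ j : Fin n, P l j = ∫ θ in (0 : ℝ)..(Real.pi / 2), sg z l θ ^ (j : ℕ) * dsg z l θ / y θ

theorem seg_eq {n : ℕ} (e : Fin (n + 1) → ℂ) (l : Fin n) (θ : ℝ) :
    seg (e l.castSucc) (e l.succ) (Real.sin θ ^ 2) = sg e l θ := by
  unfold seg sg
  push_cast
  ring

theorem sg_mul {n : ℕ} (s : ℂ) (z : Fin (n + 1) → ℂ) (l : Fin n) (θ : ℝ) :
    sg (fun r => s * z r) l θ = s * sg z l θ := by
  unfold sg
  ring

theorem sg_cont {n : ℕ} (z : Fin (n + 1) → ℂ) (l : Fin n) : Continuous (sg z l) := by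
  unfold sg
  fun_prop

theorem sg_re {n : ℕ} {e : Fin (n + 1) → ℂ} (he : e ∈ Ord n) (l : Fin n) (θ : ℝ) :
    (e l.castSucc).re ≤ (sg e l θ).re ∧ (sg e l θ).re ≤ (e l.succ).re := by
  have h1 : (sg e l θ).re = (e l.castSucc).re + ((e l.succ).re - (e l.castSucc).re) * Real.sin θ ^ 2 := by
    unfold sg
    rw [← Complex.ofReal_pow, Complex.add_re, Complex.re_mul_ofReal, Complex.sub_re]
  have h2 : (e l.castSucc).re < (e l.succ).re := he _ _ Fin.castSucc_lt_succ
  have h3 : 0 ≤ Real.sin θ ^ 2 := sq_nonneg _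
  have h4 : Real.sin θ ^ 2 ≤ 1 := Real.sin_sq_le_one θ
  rw [h1]
  constructor
  · nlinarith
  · nlinarith

/-- the factor at a point -/
theorem fac_props {n : ℕ} {e : Fin (n + 1) → ℂ} (he : e ∈ Ord n) (l : Fin n) (i : Fin (n + 1)) :
    (Continuous fun θ => fac e l i (sg e l θ)) ∧ ∀ θ, fac e l i (sg e l θ) ≠ 0 ∧
      fac e l i (sg e l θ) ^ 2 * (if i < l.castSucc then sg e l θ - e i else if l.succ < i then e i - sg e l θ
        else 1) = 1 := by
  have hsq : ∀ a : ℂ, a ≠ 0 → (a ^ (-(1 / 2) : ℂ)) ^ 2 * a = 1 := by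
    intro a ha
    rw [sq, ← Complex.cpow_add _ _ ha]
    have h1 : (-(1 / 2) : ℂ) + -(1 / 2) = -1 := by norm_num
    rw [h1, Complex.cpow_neg_one, inv_mul_cancel₀ ha]
  by_cases h1 : i < l.castSucc
  · have hre : ∀ θ, 0 < (sg e l θ - e i).re := by
      intro θ
      have h2 := (sg_re he l θ).1
      have h3 := he _ _ h1
      rw [Complex.sub_re]
      linarith
    have hsl : ∀ θ, sg e l θ - e i ∈ Complex.slitPlane := fun θ => Complex.mem_slitPlane_iff.2 (Or.inl (hre θ))
    have hne : ∀ θ, sg e l θ - e i ≠ 0 := fun θ => Complex.slitPlane_ne_zero (hsl θ)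
    have hf : ∀ θ, fac e l i (sg e l θ) = (sg e l θ - e i) ^ (-(1 / 2) : ℂ) := by
      intro θ
      unfold fac
      rw [if_pos h1]
    simp only [hf, if_pos h1]
    refine ⟨?_, fun θ => ⟨?_, hsq _ (hne θ)⟩⟩
    · rw [continuous_iff_continuousAt]
      intro θ
      exact ((sg_cont e l).continuousAt.sub continuousAt_const).cpow continuousAt_const (hsl θ)
    · rw [Complex.cpow_ne_zero_iff]
      exact Or.inl (hne θ)
  · by_cases h2 : l.succ < i
    · have hre : ∀ θ, 0 < (e i - sg e l θ).re := by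
        intro θ
        have h3 := (sg_re he l θ).2
        have h4 := he _ _ h2
        rw [Complex.sub_re]
        linarith
      have hsl : ∀ θ, e i - sg e l θ ∈ Complex.slitPlane := fun θ => Complex.mem_slitPlane_iff.2 (Or.inl (hre θ))
      have hne : ∀ θ, e i - sg e l θ ≠ 0 := fun θ => Complex.slitPlane_ne_zero (hsl θ)
      have hf : ∀ θ, fac e l i (sg e l θ) = (e i - sg e l θ) ^ (-(1 / 2) : ℂ) := by
        intro θ
        unfold fac
        rw [if_neg h1, if_pos h2]
      simp only [hf, if_neg h1, if_pos h2]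
      refine ⟨?_, fun θ => ⟨?_, hsq _ (hne θ)⟩⟩
      · rw [continuous_iff_continuousAt]
        intro θ
        exact (continuousAt_const.sub (sg_cont e l).continuousAt).cpow continuousAt_const (hsl θ)
      · rw [Complex.cpow_ne_zero_iff]
        exact Or.inl (hne θ)
    · have hf : ∀ θ, fac e l i (sg e l θ) = 1 := by
        intro θ
        unfold fac
        rw [if_neg h1, if_neg h2]
      simp only [hf, if_neg h1, if_neg h2]
      exact ⟨continuous_const, fun θ => ⟨one_ne_zero, by norm_num⟩⟩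

theorem prod_sign {n : ℕ} (l : Fin n) (t : Fin (n + 1) → ℂ) :
    (-1) ^ (n - (l : ℕ)) * ∏ r, t r = ∏ r : Fin (n + 1), if l.castSucc < r then -t r else t r := by
  have h1 : ∀ r : Fin (n + 1), (if l.castSucc < r then -t r else t r) = (if l.castSucc < r then -1 else 1) * t r := by
    intro r
    split_ifs <;> ring
  rw [Finset.prod_congr rfl fun r _ => h1 r, Finset.prod_mul_distrib, Finset.prod_ite, Finset.prod_const_one, mul_one,
    Finset.prod_const]
  congr 2
  have h2 : (Finset.univ.filter fun r : Fin (n + 1) => l.castSucc < r) = Finset.Ioi l.castSucc := by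
    ext r
    simp
  rw [h2, Fin.card_Ioi]
  simp

/-- periods of rescaled curves -/
theorem isPer_of {n : ℕ} {z : Fin (n + 1) → ℂ} {s κ : ℂ} (hs : s ≠ 0) (hκ : κ ^ 2 = s ^ (n - 1))
    (he : (fun r => s * z r) ∈ Ord n) :
    IsPer z (Matrix.of fun l j => κ * s⁻¹ ^ (j : ℕ) * perC (fun r => s * z r) l (j : ℕ)) := by
  intro l
  set e : Fin (n + 1) → ℂ := fun r => s * z r with hedef
  have hn : 1 ≤ n := by have := l.2; omega
  have hκ0 : κ ≠ 0 := by
    intro h0
    rw [h0] at hκ
    exact pow_ne_zero (n - 1) hs (by rw [← hκ]; ring)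
  set w : ℝ → ℂ := fun θ => κ * ∏ i, fac e l i (sg e l θ) with hw
  have hwc : Continuous w := continuous_const.mul (continuous_finsetProd _ fun i _ => (fac_props he l i).1)
  have hw0 : ∀ θ, w θ ≠ 0 := fun θ => mul_ne_zero hκ0 (Finset.prod_ne_zero_iff.2 fun i _ => ((fac_props he l i).2 θ).1)
  have hΔ : z l.succ - z l.castSucc ≠ 0 := by
    intro h0
    have h1 : (e l.castSucc).re < (e l.succ).re := he _ _ Fin.castSucc_lt_succ
    have h2 : e l.castSucc = e l.succ := by
      rw [sub_eq_zero] at h0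
      simp only [hedef, h0]
    rw [h2] at h1
    exact lt_irrefl _ h1
  have hcs : ∀ θ : ℝ, (Real.cos θ : ℂ) ^ 2 = 1 - (Real.sin θ : ℂ) ^ 2 := by
    intro θ
    have h := Real.sin_sq_add_cos_sq θ
    have h' : ((Real.sin θ : ℝ) : ℂ) ^ 2 + ((Real.cos θ : ℝ) : ℂ) ^ 2 = 1 := by exact_mod_cast h
    linear_combination h'
  -- the square of `w`
  have hwsq : ∀ θ, w θ ^ 2 * (∏ r : Fin (n + 1), if l.castSucc < r then -(sg z l θ - z r) else sg z l θ - z r) =
      (z l.succ - z l.castSucc) ^ 2 * (Real.sin θ : ℂ) ^ 2 * (Real.cos θ : ℂ) ^ 2 := by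
    intro θ
    have h1 : ∏ i, (fac e l i (sg e l θ) ^ 2 * (if i < l.castSucc then sg e l θ - e i else if l.succ < i then
        e i - sg e l θ else 1)) = 1 := Finset.prod_eq_one fun i _ => ((fac_props he l i).2 θ).2
    have h2 : ∀ i : Fin (n + 1), (if i < l.castSucc then sg e l θ - e i else if l.succ < i then
        e i - sg e l θ else 1) * (if i = l.castSucc then sg z l θ - z i else if i = l.succ then -(sg z l θ - z i)
          else 1) = (if i = l.castSucc ∨ i = l.succ then 1 else s) *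
          (if l.castSucc < i then -(sg z l θ - z i) else sg z l θ - z i) := by
      intro i
      have hsg : sg e l θ = s * sg z l θ := sg_mul s z l θ
      rcases lt_trichotomy i l.castSucc with h3 | h3 | h3
      · have h4 : i ≠ l.castSucc := h3.ne
        have h5 : i ≠ l.succ := (h3.trans Fin.castSucc_lt_succ).ne
        have h6 : ¬ l.castSucc < i := not_lt.2 h3.le
        rw [if_pos h3, if_neg h4, if_neg h5, if_neg (not_or.2 ⟨h4, h5⟩), if_neg h6, hsg]
        simp only [hedef]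
        ring
      · subst h3
        have h5 : ¬ l.succ < l.castSucc := not_lt.2 Fin.castSucc_lt_succ.le
        rw [if_neg (lt_irrefl _), if_neg h5, if_pos rfl, if_pos (Or.inl rfl), if_neg (lt_irrefl _)]
      · have h4 : ¬ i < l.castSucc := not_lt.2 h3.le
        have h4' : i ≠ l.castSucc := h3.ne'
        by_cases h5 : i = l.succ
        · subst h5
          rw [if_neg h4, if_neg (lt_irrefl _), if_neg h4', if_pos rfl, if_pos (Or.inr rfl), if_pos h3]
        · have h6 : l.succ < i := lt_of_le_of_ne (Fin.castSucc_lt_iff_succ_le.1 h3) (Ne.symm h5)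
          rw [if_neg h4, if_pos h6, if_neg h4', if_neg h5, if_neg (not_or.2 ⟨h4', h5⟩), if_pos h3, hsg]
          simp only [hedef]
          ring
    have h3 := Finset.prod_congr (s₁ := Finset.univ) rfl fun i _ => h2 i
    rw [Finset.prod_mul_distrib, Finset.prod_mul_distrib] at h3
    have hl : l.castSucc ≠ l.succ := Fin.castSucc_lt_succ.ne
    have h4 : (∏ i : Fin (n + 1), (if i = l.castSucc then sg z l θ - z i else if i = l.succ then -(sg z l θ - z i)
          else 1)) = (sg z l θ - z l.castSucc) * -(sg z l θ - z l.succ) := by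
      rw [← Finset.mul_prod_erase _ _ (Finset.mem_univ l.castSucc),
        ← Finset.mul_prod_erase _ _ (Finset.mem_erase.2 ⟨hl.symm, Finset.mem_univ l.succ⟩), if_pos rfl,
        if_neg hl.symm, if_pos rfl, Finset.prod_eq_one, mul_one]
      intro i hi
      rw [Finset.mem_erase, Finset.mem_erase] at hi
      rw [if_neg hi.2.1, if_neg hi.1]
    have h5 : (∏ i : Fin (n + 1), (if i = l.castSucc ∨ i = l.succ then (1 : ℂ) else s)) = s ^ (n - 1) := by
      rw [← Finset.mul_prod_erase _ _ (Finset.mem_univ l.castSucc),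
        ← Finset.mul_prod_erase _ _ (Finset.mem_erase.2 ⟨hl.symm, Finset.mem_univ l.succ⟩), if_pos (Or.inl rfl),
        if_pos (Or.inr rfl), one_mul, one_mul]
      have h6 : ∀ i ∈ (Finset.univ.erase l.castSucc).erase l.succ,
          (if i = l.castSucc ∨ i = l.succ then (1 : ℂ) else s) = s := by
        intro i hi
        rw [Finset.mem_erase, Finset.mem_erase] at hi
        rw [if_neg (not_or.2 ⟨hi.2.1, hi.1⟩)]
      rw [Finset.prod_congr rfl h6, Finset.prod_const, Finset.card_erase_of_mem (Finset.mem_erase.2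
        ⟨hl.symm, Finset.mem_univ l.succ⟩), Finset.card_erase_of_mem (Finset.mem_univ _), Finset.card_univ,
        Fintype.card_fin]
      congr 1
    rw [h4, h5] at h3
    rw [Finset.prod_mul_distrib, Finset.prod_pow] at h1
    have h6 : sg z l θ - z l.castSucc = (z l.succ - z l.castSucc) * (Real.sin θ : ℂ) ^ 2 := by
      unfold sg
      ring
    have h7 : -(sg z l θ - z l.succ) = (z l.succ - z l.castSucc) * (Real.cos θ : ℂ) ^ 2 := by
      rw [hcs]
      unfold sg
      ring
    rw [h6, h7] at h3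
    simp only [hw]
    rw [mul_pow, hκ]
    linear_combination (-(∏ i, fac e l i (sg e l θ)) ^ 2) * h3 +
      ((z l.succ - z l.castSucc) * (Real.sin θ : ℂ) ^ 2) * ((z l.succ - z l.castSucc) * (Real.cos θ : ℂ) ^ 2) * h1
  refine ⟨fun θ => (z l.succ - z l.castSucc) * (Real.sin θ : ℂ) * (Real.cos θ : ℂ) / w θ, ?_, ?_, ?_⟩
  · refine Continuous.continuousOn (Continuous.div (by fun_prop) hwc hw0)
  · intro θ _
    rw [prod_sign, div_pow, div_eq_iff (pow_ne_zero 2 (hw0 θ)), mul_comm _ (w θ ^ 2), hwsq θ]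
    ring
  · intro j
    rw [Matrix.of_apply, perC, ← intervalIntegral.integral_const_mul]
    refine intervalIntegral.integral_congr_Ioo_of_le (by positivity) fun θ hθ => ?_
    have s1 : (Real.sin θ : ℂ) ≠ 0 := by
      exact_mod_cast (Real.sin_pos_of_pos_of_lt_pi hθ.1 (by linarith [hθ.2, Real.pi_pos])).ne'
    have c1 : (Real.cos θ : ℂ) ≠ 0 := by
      exact_mod_cast (Real.cos_pos_of_mem_Ioo ⟨by linarith [hθ.1, Real.pi_pos], hθ.2⟩).ne'
    have h1 := hw0 θ
    have hsg : sg e l θ = s * sg z l θ := sg_mul s z l θ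
    have h2 : s⁻¹ ^ (j : ℕ) * s ^ (j : ℕ) = 1 := by rw [← mul_pow, inv_mul_cancel₀ hs, one_pow]
    change κ * s⁻¹ ^ (j : ℕ) * (2 * Pool.Agent.Y118.HP.ker e l (j : ℕ) (seg (e l.castSucc) (e l.succ) (Real.sin θ ^ 2))) = _
    rw [seg_eq]
    unfold Pool.Agent.Y118.HP.ker dsg
    have h3 : κ * s⁻¹ ^ (j : ℕ) * (2 * (sg e l θ ^ (j : ℕ) * ∏ i, fac e l i (sg e l θ))) =
        2 * sg z l θ ^ (j : ℕ) * w θ := by
      have h4 : sg e l θ ^ (j : ℕ) = s ^ (j : ℕ) * sg z l θ ^ (j : ℕ) := by rw [hsg, mul_pow]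
      rw [h4]
      simp only [hw]
      linear_combination (2 * κ * sg z l θ ^ (j : ℕ) * ∏ i, fac e l i (sg e l θ)) * h2
    rw [h3]
    field_simp

end Pool.Agent.X255.NH
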