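import Pool.Agent.X255.NH.CovN
import Pool.Agent.X255.NH.Per
import Pool.Agent.X255.NH.Dir
import Pool.Agent.X255.NP.RootA

/-!
# Generic tuples of hyperelliptic curves over the rational numbers
-/

set_option autoImplicit false
set_option linter.unusedSectionVars false

open Polynomial Filter Topology NumberField

namespace Pool.Agent.X255.NH

open Pool.Agent.X255.NP
open Pool.Agent.Y118.HP (qm jm perC jm_map)
open Pool.Agent.Y890.MV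
open Pool.Agent.Y890.SM
open Pool.Agent.Y890.HE
open Pool.Agent.Y890.SP (Qbar)

variable {ι : Type}

/-- the polynomials with the coefficients `c` -/
noncomputable def pl (n : ι → ℕ) (c : (Σ i, Fin (n i + 1)) → ℤ) (i : ι) : ℂ[X] :=
  X ^ (n i + 1) + ∑ r : Fin (n i + 1), C (c ⟨i, r⟩ : ℂ) * X ^ (r : ℕ)

/-- the torsor of the periods -/
def Tors (n : ι → ℕ) (c : (Σ i, Fin (n i + 1)) → ℤ) : Set ((∀ i, Matrix (Fin (n i)) (Fin (n i)) ℂ) × ℂ) :=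
  {p | p.2 ≠ 0 ∧ ∀ i, p.1 i * qm (n i) (pl n c i) * (p.1 i).transpose = (p.2 / (2 * Complex.I)) • jm ℂ (n i)}

variable [Fintype ι] [DecidableEq ι]

/-- the value of a polynomial in the entries of matrices -/
noncomputable def rl {n : ι → ℕ} {k : ℕ} (c : ((Σ i, Fin (n i) × Fin (n i)) → Fin (k + 1)) → Fin k → ℂ) (w : Fin k → ℂ)
    (Y : ∀ i, Matrix (Fin (n i)) (Fin (n i)) ℂ) : ℂ :=
  ∑ l, (∑ b, w b * c l b) * ∏ v : Σ i, Fin (n i) × Fin (n i), Y v.1 v.2.1 v.2.2 ^ (l v : ℕ)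

/-- the relations between the periods hold on the torsor -/
def Good (n : ι → ℕ) (ξ : ℕ → ℂ) (k B : ℕ) (c : (Σ i, Fin (n i + 1)) → ℤ) : Prop :=
  ∃ (lam : ℂ) (z : (Σ i, Fin (n i + 1)) → ℂ) (P : ∀ i, Matrix (Fin (n i)) (Fin (n i)) ℂ),
    ‖lam‖ = 1 ∧ (∀ i (r s : Fin (n i + 1)), r < s → (lam * z ⟨i, r⟩).re < (lam * z ⟨i, s⟩).re) ∧
    (∀ i, pl n c i = ∏ r, (X - C (z ⟨i, r⟩))) ∧ (∀ i, IsPer (fun r => z ⟨i, r⟩) (P i)) ∧
    (P, 2 * Real.pi * Complex.I) ∈ Tors n c ∧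
    ∀ (K : Type) [Field K] [NumberField K], Module.finrank ℚ K ≤ k → ∀ (io : K →+* ℂ)
      (γ : ((Σ i, Fin (n i) × Fin (n i)) → Fin (k + 1)) → Fin k → 𝓞 K),
      (∀ l b (φ : K →+* ℂ), ‖φ (γ l b : K)‖ ≤ (B : ℝ) ^ k) →
      (rl (fun l b => io (γ l b : K)) (fun b => ξ b) P = 0 →
        ∀ Y, (Y, 2 * Real.pi * Complex.I) ∈ Tors n c → rl (fun l b => io (γ l b : K)) (fun b => ξ b) Y = 0) ∧
      (rl (fun l b => io (γ l b : K)) (fun b => (2 * Real.pi * Complex.I) ^ (b : ℕ)) P = 0 →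
        ∀ p ∈ Tors n c, rl (fun l b => io (γ l b : K)) (fun b => p.2 ^ (b : ℕ)) p.1 = 0)

/-- the sides of the box -/
def sd (n : ι → ℕ) (B : ℕ) (q : Σ i, Fin (n i + 1)) : ℕ := B ^ (n q.1 + 1 - (q.2 : ℕ))

/-- normalised coefficients -/
noncomputable def nc (n : ι → ℕ) (B : ℕ) (c : (Σ i, Fin (n i + 1)) → ℤ) (q : Σ i, Fin (n i + 1)) : ℂ :=
  (c q : ℂ) / (sd n B q : ℂ)

theorem pl_eq (n : ι → ℕ) (c : (Σ i, Fin (n i + 1)) → ℤ) (i : ι) : pl n c i = mp fun r => (c ⟨i, r⟩ : ℂ) := rfl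

theorem sd_pos {n : ι → ℕ} {B : ℕ} (hB : 1 ≤ B) (q : Σ i, Fin (n i + 1)) : 0 < sd n B q :=
  Nat.pow_pos hB

/-- the polynomial from the roots of the normalised polynomial -/
theorem pl_roots {n : ι → ℕ} {B : ℕ} (hB : 1 ≤ B) (c : (Σ i, Fin (n i + 1)) → ℤ) (i : ι) (z' : Fin (n i + 1) → ℂ)
    (hz : co z' = bk (nc n B c) i) : pl n c i = ∏ r, (X - C ((B : ℂ) * z' r)) := by
  have hB' : (B : ℂ) ≠ 0 := by
    have : B ≠ 0 := by omega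
    exact_mod_cast this
  rw [pl_eq, ← mp_co]
  congr 1
  funext r
  rw [co, scale_coeff hB' z' (r : ℕ) r.2.le]
  have h1 := congrFun hz r
  have h2 : (∏ s, (X - C (z' s))).coeff (r : ℕ) = (c ⟨i, r⟩ : ℂ) / (sd n B ⟨i, r⟩ : ℂ) := h1
  rw [h2]
  have h3 : ((sd n B ⟨i, r⟩ : ℕ) : ℂ) = (B : ℂ) ^ (n i + 1 - (r : ℕ)) := by
    rw [sd]
    push_cast
    rfl
  rw [h3]
  have h4 : (B : ℂ) ^ (n i + 1 - (r : ℕ)) ≠ 0 := pow_ne_zero _ hB'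
  field_simp

/-- the exponent of the common factor -/
def ex (n : ι → ℕ) {k : ℕ} (l : (Σ i, Fin (n i) × Fin (n i)) → Fin (k + 1)) : ℕ :=
  ∑ v : Σ i, Fin (n i) × Fin (n i), ((n v.1 - 1) * (k - (l v : ℕ)) + 2 * (v.2.2 : ℕ) * (l v : ℕ))

theorem ex_le (n : ι → ℕ) {k : ℕ} (l : (Σ i, Fin (n i) × Fin (n i)) → Fin (k + 1)) :
    ex n l ≤ ∑ v : Σ i, Fin (n i) × Fin (n i), 3 * n v.1 * k := by
  refine Finset.sum_le_sum fun v _ => ?_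
  have h1 : (l v : ℕ) ≤ k := by have := (l v).2; omega
  have h2 : (v.2.2 : ℕ) ≤ n v.1 := by have := v.2.2.2; omega
  have h3 : (n v.1 - 1) * (k - (l v : ℕ)) ≤ n v.1 * k := Nat.mul_le_mul (Nat.sub_le _ _) (Nat.sub_le _ _)
  have h4 : 2 * (v.2.2 : ℕ) * (l v : ℕ) ≤ 2 * n v.1 * k := Nat.mul_le_mul (Nat.mul_le_mul_left _ h2) h1
  calc (n v.1 - 1) * (k - (l v : ℕ)) + 2 * (v.2.2 : ℕ) * (l v : ℕ) ≤ n v.1 * k + 2 * n v.1 * k := Nat.add_le_add h3 h4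
    _ = 3 * n v.1 * k := by ring

/-- the common factor -/
theorem ex_prod (n : ι → ℕ) {k : ℕ} (l : (Σ i, Fin (n i) × Fin (n i)) → Fin (k + 1)) {τ : ℂ} (hτ : τ ≠ 0)
    (Y : (Σ i, Fin (n i) × Fin (n i)) → ℂ) :
    τ ^ ex n l * ∏ v, Y v ^ (l v : ℕ) = τ ^ (∑ v : Σ i, Fin (n i) × Fin (n i), (n v.1 - 1) * k) *
      ∏ v, (τ ^ (2 * (v.2.2 : ℕ)) * (τ ^ (n v.1 - 1))⁻¹ * Y v) ^ (l v : ℕ) := by
  rw [ex, ← Finset.prod_pow_eq_pow_sum, ← Finset.prod_pow_eq_pow_sum, ← Finset.prod_mul_distrib,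
    ← Finset.prod_mul_distrib]
  refine Finset.prod_congr rfl fun v _ => ?_
  have h1 : (l v : ℕ) ≤ k := by have := (l v).2; omega
  have h2 : (n v.1 - 1) * k = (n v.1 - 1) * (k - (l v : ℕ)) + (n v.1 - 1) * (l v : ℕ) := by
    rw [← Nat.mul_add, Nat.sub_add_cancel h1]
  have h3 : τ ^ ((n v.1 - 1) * (l v : ℕ)) * ((τ ^ (n v.1 - 1))⁻¹) ^ (l v : ℕ) = 1 := by
    rw [pow_mul, ← mul_pow, mul_inv_cancel₀ (pow_ne_zero _ hτ), one_pow]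
  rw [h2, pow_add, pow_add, mul_pow, mul_pow, ← pow_mul τ (2 * (v.2.2 : ℕ)) (l v : ℕ)]
  linear_combination (-(τ ^ ((n v.1 - 1) * (k - (l v : ℕ))) * τ ^ (2 * (v.2.2 : ℕ) * (l v : ℕ)) * Y v ^ (l v : ℕ))) * h3

end Pool.Agent.X255.NH
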