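import Pool.Agent.X255.NH.Good

/-!
# Generic points give generic curves
-/

set_option autoImplicit false
set_option linter.unusedSectionVars false

open Polynomial Filter Topology NumberField

namespace Pool.Agent.X255.NH

open Pool.Agent.X255.NP
open Pool.Agent.Y118.HP (qm jm perC jm_map)
open Pool.Agent.Y890.MV
open Pool.Agent.Y890.SM
open Pool.Agent.Y890.HE
open Pool.Agent.Y890.SP (Qbar)

variable {ι : Type} [Fintype ι] [DecidableEq ι]

/-- the change of the basis of the differential forms -/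
noncomputable def dd (n : ι → ℕ) (τ : ℂ) (i : ι) (j : Fin (n i)) : ℂ := τ ^ (2 * (j : ℕ)) * (τ ^ (n i - 1))⁻¹

theorem dd_ne {n : ι → ℕ} {τ : ℂ} (hτ : τ ≠ 0) (i : ι) (j : Fin (n i)) : dd n τ i j ≠ 0 :=
  mul_ne_zero (pow_ne_zero _ hτ) (inv_ne_zero (pow_ne_zero _ hτ))

theorem Qx_scale {n : ι → ℕ} (hn : ∀ i, Even (n i)) {B : ℕ} (hB : 1 ≤ B) (c : (Σ i, Fin (n i + 1)) → ℤ) (lamQ : Qbar)
    (hlam : lamQ ≠ 0) {τ : ℂ} (hτ : τ ≠ 0) (hτ2 : τ ^ 2 * algebraMap Qbar ℂ lamQ = B) (i : ι) :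
    (hypL n hn lamQ hlam).Qx (nc n B c) i =
      (2 * Complex.I) • (Matrix.diagonal (dd n τ i) * qm (n i) (pl n c i) * Matrix.diagonal (dd n τ i)) := by
  have hB' : (B : ℂ) ≠ 0 := by
    have : B ≠ 0 := by omega
    exact_mod_cast this
  refine Matrix.ext fun a b => ?_
  have h1 : (hypL n hn lamQ hlam).Qx (nc n B c) i a b = MvPolynomial.aeval (nc n B c) (QL n lamQ i a b) := rfl
  rw [h1, QL, Matrix.of_apply, map_mul, MvPolynomial.aeval_C, Matrix.smul_apply, Matrix.mul_diagonal,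
    Matrix.diagonal_mul, qm, Matrix.of_apply, map_mul, map_div₀, map_sub, map_natCast, map_natCast, map_ofNat,
    twoI_coe, smul_eq_mul]
  have key : MvPolynomial.aeval (nc n B c) (cfL n lamQ i ((a : ℕ) + (b : ℕ) + 2)) =
      dd n τ i a * dd n τ i b * (pl n c i).coeff ((a : ℕ) + (b : ℕ) + 2) := by
    have hn1 : 1 ≤ n i := by have := a.2; omega
    have hdd : dd n τ i a * dd n τ i b * (τ ^ 2) ^ (n i - 1) = (τ ^ 2) ^ ((a : ℕ) + (b : ℕ)) := by
      unfold dd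
      have h3 : (τ ^ (n i - 1))⁻¹ * (τ ^ (n i - 1))⁻¹ * (τ ^ 2) ^ (n i - 1) = 1 := by
        have h4 : (τ ^ 2) ^ (n i - 1) = τ ^ (n i - 1) * τ ^ (n i - 1) := by
          rw [← pow_mul, ← pow_add]
          congr 1
          omega
        rw [h4]
        have := pow_ne_zero (n i - 1) hτ
        field_simp
      have h5 : (τ ^ 2) ^ ((a : ℕ) + (b : ℕ)) = τ ^ (2 * (a : ℕ)) * τ ^ (2 * (b : ℕ)) := by
        rw [← pow_mul, ← pow_add]
        congr 1
        omega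
      rw [h5]
      linear_combination (τ ^ (2 * (a : ℕ)) * τ ^ (2 * (b : ℕ))) * h3
    have hτ2' : (τ ^ 2) ≠ 0 := pow_ne_zero _ hτ
    unfold cfL
    split_ifs with h2 h3
    · -- below the top
      rw [map_mul, MvPolynomial.aeval_C, MvPolynomial.aeval_X, map_pow]
      have h4 : (pl n c i).coeff ((a : ℕ) + (b : ℕ) + 2) = (c ⟨i, ⟨(a : ℕ) + (b : ℕ) + 2, h2⟩⟩ : ℂ) := by
        rw [pl_eq]
        exact mp_coeff (fun r => (c ⟨i, r⟩ : ℂ)) ⟨(a : ℕ) + (b : ℕ) + 2, h2⟩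
      have h5 : ((sd n B ⟨i, ⟨(a : ℕ) + (b : ℕ) + 2, h2⟩⟩ : ℕ) : ℂ) =
          (B : ℂ) ^ (n i + 1 - ((a : ℕ) + (b : ℕ) + 2)) := by
        rw [sd]
        push_cast
        rfl
      rw [h4, nc, h5]
      set m := n i + 1 - ((a : ℕ) + (b : ℕ) + 2) with hm
      have h6 : n i - 1 = ((a : ℕ) + (b : ℕ)) + m := by omega
      rw [h6, pow_add] at hdd
      have h7 : (τ ^ 2) ^ ((a : ℕ) + (b : ℕ)) ≠ 0 := pow_ne_zero _ hτ2'
      have h8 : dd n τ i a * dd n τ i b * (τ ^ 2) ^ m = 1 := by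
        apply mul_left_cancel₀ h7
        linear_combination hdd
      have h9 : (τ ^ 2) ^ m * (algebraMap Qbar ℂ lamQ) ^ m = (B : ℂ) ^ m := by rw [← mul_pow, hτ2]
      have h10 : (B : ℂ) ^ m ≠ 0 := pow_ne_zero _ hB'
      have h11 : (algebraMap Qbar ℂ lamQ) ^ m = dd n τ i a * dd n τ i b * (B : ℂ) ^ m := by
        rw [← h9]
        linear_combination (-(algebraMap Qbar ℂ lamQ) ^ m) * h8
      rw [h11]
      field_simp
    · rw [map_one]
      have h4 : (pl n c i).coeff ((a : ℕ) + (b : ℕ) + 2) = 1 := by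
        rw [pl_eq, h3]
        have h5 := (mp_monic fun r : Fin (n i + 1) => (c ⟨i, r⟩ : ℂ)).coeff_natDegree
        rwa [mp_degree] at h5
      rw [h4, mul_one]
      have h6 : n i - 1 = (a : ℕ) + (b : ℕ) := by omega
      rw [h6] at hdd
      have h7 : (τ ^ 2) ^ ((a : ℕ) + (b : ℕ)) ≠ 0 := pow_ne_zero _ hτ2'
      exact (mul_right_cancel₀ h7 (by rw [one_mul]; exact hdd)).symm
    · rw [map_zero]
      have h4 : (pl n c i).coeff ((a : ℕ) + (b : ℕ) + 2) = 0 := by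
        rw [pl_eq]
        apply coeff_eq_zero_of_natDegree_lt
        rw [mp_degree]
        omega
      rw [h4, mul_zero]
  rw [key]
  ring

theorem rl_scale (n : ι → ℕ) {k : ℕ} {τ : ℂ} (hτ : τ ≠ 0)
    (γ : ((Σ i, Fin (n i) × Fin (n i)) → Fin (k + 1)) → Fin k → ℂ) (w : Fin k → ℂ)
    (Y : ∀ i, Matrix (Fin (n i)) (Fin (n i)) ℂ) (Ye : Ix n → ℂ)
    (hY : ∀ v : Ix n, Y v.1 v.2.1 v.2.2 = dd n τ v.1 v.2.2 * Ye v) :
    ∑ l, (∑ b, w b * (γ l b * τ ^ ex n l)) * ∏ v : Ix n, Ye v ^ (l v : ℕ) =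
      τ ^ (∑ v : Ix n, (n v.1 - 1) * k) * rl γ w Y := by
  rw [rl, Finset.mul_sum]
  refine Finset.sum_congr rfl fun l _ => ?_
  have h1 := ex_prod n l hτ Ye
  have h2 : ∏ v : Ix n, (τ ^ (2 * (v.2.2 : ℕ)) * (τ ^ (n v.1 - 1))⁻¹ * Ye v) ^ (l v : ℕ) =
      ∏ v : Ix n, Y v.1 v.2.1 v.2.2 ^ (l v : ℕ) :=
    Finset.prod_congr rfl fun v _ => by rw [hY v]; rfl
  rw [h2] at h1
  have h3 : ∑ b, w b * (γ l b * τ ^ ex n l) = (∑ b, w b * γ l b) * τ ^ ex n l := by
    rw [Finset.sum_mul]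
    exact Finset.sum_congr rfl fun b _ => by ring
  rw [h3]
  linear_combination (∑ b, w b * γ l b) * h1

theorem good_of {n : ι → ℕ} (hn : ∀ i, Even (n i)) (ξ : ℕ → ℂ) {k B M : ℕ} (hM : 0 < M) (hB : 1 ≤ B)
    (c : (Σ i, Fin (n i + 1)) → ℤ) (lamQ : Qbar) (hlam : lamQ ≠ 0) (mu : ℂ) (hmu : mu ^ (4 * M) = 1)
    (hl : algebraMap Qbar ℂ lamQ = mu ^ 2) (z' : (Σ i, Fin (n i + 1)) → ℂ)
    (hz : ∀ i, co (bk z' i) = bk (nc n B c) i) (hord : ∀ i, bk z' i ∈ OrdL (algebraMap Qbar ℂ lamQ) (n i))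
    (R : ℝ) (hR : (B : ℝ) ^ (k + 2 * M * ∑ v : Ix n, 3 * n v.1 * k) ≤ R)
    (hold : Hold (hypL n hn lamQ hlam) k k (k * (4 * M)) (fun b => ξ b) R (nc n B c)) : Good n ξ k B c := by
  classical
  have hBr : (1 : ℝ) ≤ B := by exact_mod_cast hB
  have hB' : (B : ℂ) ≠ 0 := by
    have : B ≠ 0 := by omega
    exact_mod_cast this
  have hmu1 : ‖mu‖ = 1 := norm_unit (by omega) hmu
  have hmu0 : mu ≠ 0 := by
    intro h0
    rw [h0, norm_zero] at hmu1
    exact zero_ne_one hmu1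
  set lam : ℂ := algebraMap Qbar ℂ lamQ with hlamdef
  have hlam0 : lam ≠ 0 := by rw [hl]; exact pow_ne_zero _ hmu0
  set β : ℂ := ((Real.sqrt B : ℝ) : ℂ) with hβ
  have hβ2 : β ^ 2 = B := by
    rw [hβ, ← Complex.ofReal_pow, Real.sq_sqrt (by positivity)]
    simp
  set τ : ℂ := β * mu⁻¹ with hτd
  have hτ2 : τ ^ 2 * lam = B := by
    rw [hτd, hl, mul_pow, hβ2]
    field_simp
  have hτ : τ ≠ 0 := by
    intro h0
    rw [h0] at hτ2
    apply hB'
    rw [← hτ2]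
    ring
  have hτN : τ ^ (4 * M) = ((B ^ (2 * M) : ℕ) : ℂ) := by
    have h1 : β ^ (4 * M) = (B : ℂ) ^ (2 * M) := by
      rw [← hβ2, ← pow_mul]
      congr 1
      omega
    rw [hτd, mul_pow, inv_pow, hmu, h1]
    push_cast
    simp
  set s : ℂ := lam / B with hs
  have hs0 : s ≠ 0 := div_ne_zero hlam0 hB'
  have hsτ : s * τ ^ 2 = 1 := by
    rw [hs]
    field_simp
    linear_combination hτ2
  have hsinv : s⁻¹ = τ ^ 2 := by
    rw [inv_eq_iff_eq_inv]
    exact eq_inv_of_mul_eq_one_left hsτ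
  have hsB : ∀ x : ℂ, s * ((B : ℂ) * x) = lam * x := by
    intro x
    rw [hs]
    field_simp
  -- the functions
  set F := hypL n hn lamQ hlam with hF
  have hZ : ZL n lam (nc n B c) = fun q => lam * z' q := by
    funext q
    change Zb lam (n q.1) (bk (nc n B c) q.1) q.2 = _
    rw [← hz, Zb_co (hord q.1)]
    rfl
  have hW : nc n B c ∈ F.U := fun i => ⟨bk z' i, hord i, hz i⟩
  have hFP : ∀ i (l j : Fin (n i)), F.P i (nc n B c) l j = perC (fun r => lam * z' ⟨i, r⟩) l (j : ℕ) := by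
    intro i l j
    change pm n (ZL n lam (nc n B c)) i l j = _
    rw [hZ]
    rfl
  set P : ∀ i, Matrix (Fin (n i)) (Fin (n i)) ℂ := fun i => Matrix.of fun l j =>
    (τ ^ (n i - 1))⁻¹ * s⁻¹ ^ (j : ℕ) * perC (fun r => s * ((B : ℂ) * z' ⟨i, r⟩)) l (j : ℕ) with hP
  have hPe : ∀ i (l j : Fin (n i)), P i l j = dd n τ i j * F.P i (nc n B c) l j := by
    intro i l j
    rw [hFP]
    simp only [hP, Matrix.of_apply, hsB, dd, hsinv, ← pow_mul]
    ring
  have hPm : ∀ i, P i = F.P i (nc n B c) * Matrix.diagonal (dd n τ i) := by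
    intro i
    refine Matrix.ext fun l j => ?_
    rw [Matrix.mul_diagonal, hPe, mul_comm]
  have hQ := Qx_scale hn hB c lamQ hlam hτ hτ2
  have hJ : ∀ i, F.Jx i = jm ℂ (n i) := fun i => jm_map (algebraMap ℚ ℂ)
  have h2I : (2 * Complex.I : ℂ) ≠ 0 := mul_ne_zero two_ne_zero Complex.I_ne_zero
  have hpi : (2 * Real.pi * Complex.I : ℂ) = tpi := rfl
  -- from the torsor of the curves to the torsor of the family
  have htor : ∀ (Y : ∀ i, Matrix (Fin (n i)) (Fin (n i)) ℂ) (ϖ : ℂ), (Y, ϖ) ∈ Tors n c → ∀ i,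
      bl (fun v : Ix n => Y v.1 v.2.1 v.2.2 * (dd n τ v.1 v.2.2)⁻¹) i *
      F.Qx (nc n B c) i * (bl (fun v : Ix n => Y v.1 v.2.1 v.2.2 * (dd n τ v.1 v.2.2)⁻¹) i).transpose =
      ϖ ^ F.w i • F.Jx i := by
    intro Y ϖ hp i
    have h1 : bl (fun v : Ix n => Y v.1 v.2.1 v.2.2 * (dd n τ v.1 v.2.2)⁻¹) i =
        Y i * Matrix.diagonal (fun j => (dd n τ i j)⁻¹) := by
      refine Matrix.ext fun l j => ?_
      rw [Matrix.mul_diagonal]
      rfl
    have h2 : Matrix.diagonal (fun j => (dd n τ i j)⁻¹) * Matrix.diagonal (dd n τ i) = 1 := by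
      rw [Matrix.diagonal_mul_diagonal]
      have h3 : (fun j => (dd n τ i j)⁻¹ * dd n τ i j) = fun _ => (1 : ℂ) := by
        funext j
        exact inv_mul_cancel₀ (dd_ne hτ i j)
      rw [h3, Matrix.diagonal_one]
    have h3 : Matrix.diagonal (dd n τ i) * Matrix.diagonal (fun j => (dd n τ i j)⁻¹) = 1 := by
      rw [Matrix.diagonal_mul_diagonal]
      have h3 : (fun j => dd n τ i j * (dd n τ i j)⁻¹) = fun _ => (1 : ℂ) := by
        funext j
        exact mul_inv_cancel₀ (dd_ne hτ i j)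
      rw [h3, Matrix.diagonal_one]
    have h4 : Y i * qm (n i) (pl n c i) * (Y i).transpose = (ϖ / (2 * Complex.I)) • jm ℂ (n i) := hp.2 i
    have hw : F.w i = 1 := rfl
    rw [h1, hQ, hJ, hw, pow_one, Matrix.transpose_mul, Matrix.diagonal_transpose, Matrix.mul_smul, Matrix.smul_mul]
    have h5 : Y i * Matrix.diagonal (fun j => (dd n τ i j)⁻¹) *
        (Matrix.diagonal (dd n τ i) * qm (n i) (pl n c i) * Matrix.diagonal (dd n τ i)) *
        (Matrix.diagonal (fun j => (dd n τ i j)⁻¹) * (Y i).transpose) =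
        Y i * (Matrix.diagonal (fun j => (dd n τ i j)⁻¹) * Matrix.diagonal (dd n τ i)) * qm (n i) (pl n c i) *
          ((Matrix.diagonal (dd n τ i) * Matrix.diagonal (fun j => (dd n τ i j)⁻¹)) * (Y i).transpose) := by
      simp only [Matrix.mul_assoc]
    rw [h5, h2, h3, Matrix.mul_one, Matrix.one_mul, h4, smul_smul]
    congr 1
    field_simp
  have hmem : (P, (2 * Real.pi * Complex.I : ℂ)) ∈ Tors n c := by
    refine ⟨by rw [hpi]; exact tpi_ne, fun i => ?_⟩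
    have h1 := F.riemann (nc n B c) hW i
    have hw : F.w i = 1 := rfl
    have h2 : (F.Q i).map (MvPolynomial.aeval (nc n B c)) = F.Qx (nc n B c) i := rfl
    have h3 : (F.J i).map (algebraMap ℚ ℂ) = F.Jx i := rfl
    rw [h2, h3, hQ, hJ, hw, pow_one, Matrix.mul_smul, Matrix.smul_mul] at h1
    change P i * qm (n i) (pl n c i) * (P i).transpose = ((2 * Real.pi * Complex.I) / (2 * Complex.I) : ℂ) • jm ℂ (n i)
    rw [hPm, Matrix.transpose_mul, Matrix.diagonal_transpose]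
    have h5 : F.P i (nc n B c) * Matrix.diagonal (dd n τ i) * qm (n i) (pl n c i) *
        (Matrix.diagonal (dd n τ i) * (F.P i (nc n B c)).transpose) =
        F.P i (nc n B c) * (Matrix.diagonal (dd n τ i) * qm (n i) (pl n c i) * Matrix.diagonal (dd n τ i)) *
          (F.P i (nc n B c)).transpose := by
      simp only [Matrix.mul_assoc]
    rw [h5, hpi, div_eq_inv_mul, ← smul_smul, ← h1, smul_smul, inv_mul_cancel₀ h2I, one_smul]
  refine ⟨lam, fun q => (B : ℂ) * z' q, P, ?_, ?_, ?_, ?_, hmem, ?_⟩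
  · rw [hl, norm_pow, hmu1, one_pow]
  · intro i r t hrt
    have h1 : (lam * z' ⟨i, r⟩).re < (lam * z' ⟨i, t⟩).re := hord i r t hrt
    have h2 : ∀ x : ℂ, (lam * ((B : ℂ) * x)).re = (B : ℝ) * (lam * x).re := by
      intro x
      have h3 : lam * ((B : ℂ) * x) = ((B : ℝ) : ℂ) * (lam * x) := by
        push_cast
        ring
      rw [h3, Complex.re_ofReal_mul]
    rw [h2, h2]
    exact mul_lt_mul_of_pos_left h1 (by linarith)
  · intro i
    exact pl_roots hB c i _ (hz i)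
  · intro i
    refine isPer_of (z := fun r => (B : ℂ) * z' ⟨i, r⟩) (s := s) (κ := (τ ^ (n i - 1))⁻¹) hs0 ?_ ?_
    · rw [inv_pow, ← pow_mul, mul_comm, pow_mul, ← hsinv, inv_pow, inv_inv]
    · intro r t hrt
      simp only [hsB]
      exact hord i r t hrt
  · intro K _ _ hK io γ hγ
    obtain ⟨E₁, hE₁, hE₁n, hE₁c⟩ := image_field K io
    obtain ⟨h1, h2, h3⟩ := rad_field (N := 4 * M) (by omega) (Nat.one_le_pow _ _ hB) hτN
    set E : IntermediateField ℚ ℂ := E₁ ⊔ IntermediateField.adjoin ℚ {τ} with hE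
    have hEf : FiniteDimensional ℚ E := IntermediateField.finiteDimensional_sup _ _
    have hEn : Module.finrank ℚ E ≤ k * (4 * M) := by
      refine (IntermediateField.finrank_sup_le _ _).trans (Nat.mul_le_mul ?_ h2)
      rw [hE₁n]
      exact hK
    have hτE : τ ∈ E := le_sup_right (a := E₁) (IntermediateField.mem_adjoin_simple_self ℚ τ)
    have hAE : ∀ l b, AE E R (io (γ l b : K) * τ ^ ex n l) := by
      intro l b
      have h4 := (hE₁c (γ l b) ((B : ℝ) ^ k) (hγ l b)).le (le_sup_left (a := E₁) (b := IntermediateField.adjoin ℚ {τ}))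
      have h5 := (h3 E hτE).pow (ex n l)
      refine (h4.mul h5).mono (le_trans ?_ hR)
      push_cast
      rw [← pow_mul, ← pow_add]
      refine pow_le_pow_right₀ hBr ?_
      have h6 := ex_le n l
      have h7 : 2 * M * ex n l ≤ 2 * M * ∑ v : Ix n, 3 * n v.1 * k := Nat.mul_le_mul_left _ h6
      omega
    obtain ⟨H1, H2⟩ := hold E hEf hEn (fun l b => io (γ l b : K) * τ ^ ex n l) hAE
    have hτM : τ ^ (∑ v : Ix n, (n v.1 - 1) * k) ≠ 0 := pow_ne_zero _ hτ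
    have hfP : ∀ v : Ix n, P v.1 v.2.1 v.2.2 = dd n τ v.1 v.2.2 * F.f v (nc n B c) := fun v => hPe v.1 v.2.1 v.2.2
    have hYe : ∀ (Y : ∀ i, Matrix (Fin (n i)) (Fin (n i)) ℂ) (v : Ix n), Y v.1 v.2.1 v.2.2 =
        dd n τ v.1 v.2.2 * (Y v.1 v.2.1 v.2.2 * (dd n τ v.1 v.2.2)⁻¹) := by
      intro Y v
      have := dd_ne hτ v.1 v.2.2
      field_simp
    rw [hpi]
    have e1 := rl_scale n hτ (fun l b => io (γ l b : K)) (fun b : Fin k => ξ b) P (fun v => F.f v (nc n B c)) hfP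
    have e2 := rl_scale n hτ (fun l b => io (γ l b : K)) (fun b : Fin k => tpi ^ (b : ℕ)) P
      (fun v => F.f v (nc n B c)) hfP
    refine ⟨fun h0 Y hY => ?_, fun h0 p hp => ?_⟩
    · rw [h0, mul_zero] at e1
      have h5 := htor Y tpi hY
      have h4 := H1 e1 (fun v : Ix n => Y v.1 v.2.1 v.2.2 * (dd n τ v.1 v.2.2)⁻¹) (fun i => h5 i)
      have e3 := rl_scale n hτ (fun l b => io (γ l b : K)) (fun b : Fin k => ξ b) Y _ (hYe Y)
      exact (mul_eq_zero.1 (e3.symm.trans h4)).resolve_left hτM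
    · rw [h0, mul_zero] at e2
      obtain ⟨Y, ϖ⟩ := p
      have h5 := htor Y ϖ hp
      have h4 := H2 e2 ϖ hp.1 (fun v : Ix n => Y v.1 v.2.1 v.2.2 * (dd n τ v.1 v.2.2)⁻¹) (fun i => h5 i)
      have e3 := rl_scale n hτ (fun l b => io (γ l b : K)) (fun b : Fin k => ϖ ^ (b : ℕ)) Y _ (hYe Y)
      exact (mul_eq_zero.1 (e3.symm.trans h4)).resolve_left hτM

end Pool.Agent.X255.NH
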