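import Pool.Agent.X255.NP.Root
import Pool.Agent.X255.NH.Push

/-!
# The ordered roots of monic polynomials as analytic functions of the coefficients
-/

set_option autoImplicit false
set_option linter.unusedSectionVars false

open Polynomial Filter Topology

namespace Pool.Agent.X255.NH

open Pool.Agent.X255.NP
open Pool.Agent.Y890.MV
open Pool.Agent.Y890.SM
open Pool.Agent.Y890.HE
open Pool.Agent.Y890.SP (Qbar)

/-- the tuples `z` such that the real parts of the `lam * z r` increase -/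
def OrdL (lam : ℂ) (n : ℕ) : Set (Fin (n + 1) → ℂ) := {z | ∀ r s : Fin (n + 1), r < s → (lam * z r).re < (lam * z s).re}

theorem OrdL_iff (lam : ℂ) (n : ℕ) (z : Fin (n + 1) → ℂ) : z ∈ OrdL lam n ↔ (fun r => lam * z r) ∈ Ord n := Iff.rfl

theorem OrdL_open (lam : ℂ) (n : ℕ) : IsOpen (OrdL lam n) := by
  have h1 : OrdL lam n = (fun z : Fin (n + 1) → ℂ => fun r => lam * z r) ⁻¹' Ord n := rfl
  rw [h1]
  exact (Ord_open n).preimage (continuous_pi fun r => continuous_const.mul (continuous_apply r))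

theorem OrdL_inj {lam : ℂ} {n : ℕ} {z : Fin (n + 1) → ℂ} (hz : z ∈ OrdL lam n) : Function.Injective z := by
  intro r s h
  rcases lt_trichotomy r s with h1 | h1 | h1
  · have := hz r s h1
    rw [h] at this
    exact absurd this (lt_irrefl _)
  · exact h1
  · have := hz s r h1
    rw [h] at this
    exact absurd this (lt_irrefl _)

theorem co_inj {lam : ℂ} {n : ℕ} {z z' : Fin (n + 1) → ℂ} (hz : z ∈ OrdL lam n) (hz' : z' ∈ OrdL lam n)
    (h : co z = co z') : z = z' := by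
  have hroot : ∀ (z z' : Fin (n + 1) → ℂ), co z = co z' → ∀ j, ∃ i, z' j = z i := by
    intro z z' h j
    apply mp_root z
    rw [h, mp_co, eval_prod, Finset.prod_eq_zero (Finset.mem_univ j) (by simp)]
  have h1 := hroot z z' h
  have h2 := hroot z' z h.symm
  have hm : StrictMono fun r => (lam * z r).re := fun r s hrs => hz r s hrs
  have hm' : StrictMono fun r => (lam * z' r).re := fun r s hrs => hz' r s hrs
  have h3 : (fun r => (lam * z r).re) = fun r => (lam * z' r).re := by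
    rw [← StrictMono.range_inj hm hm']
    ext x
    constructor
    · rintro ⟨r, rfl⟩
      obtain ⟨s, hs⟩ := h2 r
      exact ⟨s, by simp only [hs]⟩
    · rintro ⟨r, rfl⟩
      obtain ⟨s, hs⟩ := h1 r
      exact ⟨s, by simp only [hs]⟩
  funext r
  obtain ⟨s, hs⟩ := h1 r
  have h4 := congrFun h3 r
  simp only [hs] at h4
  have h5 := hm.injective h4
  rw [hs, h5]

/-- the inverse -/
noncomputable def Zb (lam : ℂ) (n : ℕ) (a : Fin (n + 1) → ℂ) : Fin (n + 1) → ℂ :=
  by classical exact if h : ∃ z ∈ OrdL lam n, co z = a then fun r => lam * h.choose r else 0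

theorem Zb_co {lam : ℂ} {n : ℕ} {z : Fin (n + 1) → ℂ} (hz : z ∈ OrdL lam n) :
    Zb lam n (co z) = fun r => lam * z r := by
  classical
  have h : ∃ z' ∈ OrdL lam n, co z' = co z := ⟨z, hz, rfl⟩
  unfold Zb
  rw [dif_pos h, co_inj h.choose_spec.1 hz h.choose_spec.2]

theorem block_inv {lam : ℂ} (n : ℕ) : IsOpen (co '' OrdL lam n) ∧
    ∀ r, AnalyticOnNhd ℂ (fun a => Zb lam n a r) (co '' OrdL lam n) := by
  have key : ∀ z0 ∈ OrdL lam n, ∃ W : Set (Fin (n + 1) → ℂ), IsOpen W ∧ co z0 ∈ W ∧ W ⊆ co '' OrdL lam n ∧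
      ∀ r, AnalyticOnNhd ℂ (fun a => Zb lam n a r) W := by
    intro z0 hz0
    obtain ⟨W, N, ζ, h1, _, _, _, h5, h6, h7, h8, h9⟩ := exists_chart _ (OrdL_open lam n) z0 hz0 (OrdL_inj hz0)
    refine ⟨W, h1, (h9 z0 h5).1, fun a ha => ⟨ζ a, h6 (h8 a ha).1, (h8 a ha).2⟩, fun r a ha => ?_⟩
    have h10 : AnalyticAt ℂ (fun a => lam * ζ a r) a := analyticAt_const.mul (h7 r a ha)
    refine h10.congr ?_
    filter_upwards [h1.mem_nhds ha] with b hb
    have h11 := Zb_co (h6 (h8 b hb).1)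
    rw [(h8 b hb).2] at h11
    rw [h11]
  constructor
  · rw [isOpen_iff_mem_nhds]
    rintro _ ⟨z0, hz0, rfl⟩
    obtain ⟨W, h1, h2, h3, _⟩ := key z0 hz0
    exact Filter.mem_of_superset (h1.mem_nhds h2) h3
  · rintro r _ ⟨z0, hz0, rfl⟩
    obtain ⟨W, h1, h2, h3, h4⟩ := key z0 hz0
    exact h4 r _ h2

theorem scale_coeff {lam : ℂ} (hlam : lam ≠ 0) {d : ℕ} (z : Fin d → ℂ) (k : ℕ) (hk : k ≤ d) :
    (∏ s, (X - C (lam * z s))).coeff k = lam ^ (d - k) * (∏ s, (X - C (z s))).coeff k := by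
  have h1 : (∏ s, (X - C (lam * z s))) = C (lam ^ d) * (∏ s, (X - C (z s))).comp (C lam⁻¹ * X) := by
    rw [prod_comp]
    have h2 : (C (lam ^ d) : ℂ[X]) = ∏ _s : Fin d, C lam := by simp
    rw [h2, ← Finset.prod_mul_distrib]
    refine Finset.prod_congr rfl fun s _ => ?_
    rw [sub_comp, X_comp, C_comp, mul_sub, ← mul_assoc, ← C_mul, ← C_mul, mul_inv_cancel₀ hlam, C_1, one_mul]
  rw [h1, coeff_C_mul, comp_C_mul_X_coeff]
  have h3 : lam ^ d = lam ^ (d - k) * lam ^ k := by rw [← pow_add, Nat.sub_add_cancel hk]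
  have h4 : lam ^ k * lam⁻¹ ^ k = 1 := by rw [← mul_pow, mul_inv_cancel₀ hlam, one_pow]
  rw [h3]
  linear_combination lam ^ (d - k) * (∏ s, (X - C (z s))).coeff k * h4

variable {ι : Type}

/-- a block of coordinates -/
def bk {R : Type} {n : ι → ℕ} (c : (Σ i, Fin (n i + 1)) → R) (i : ι) : Fin (n i + 1) → R := fun r => c ⟨i, r⟩

/-- the coefficients as polynomials in the rotated roots -/
noncomputable def cL (n : ι → ℕ) (lam : Qbar) (q : Σ i, Fin (n i + 1)) : MvPolynomial (Σ i, Fin (n i + 1)) Qbar :=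
  (∏ s : Fin (n q.1 + 1), (X - C (MvPolynomial.C lam⁻¹ * MvPolynomial.X (⟨q.1, s⟩ : Σ i, Fin (n i + 1))))).coeff q.2

theorem cv_cL (n : ι → ℕ) (lam : Qbar) (e : (Σ i, Fin (n i + 1)) → ℂ) (i : ι) :
    bk (cv (cL n lam) e) i = co fun s => (algebraMap Qbar ℂ lam)⁻¹ * e ⟨i, s⟩ := by
  funext r
  have h1 : (∏ s : Fin (n i + 1), (X - C ((algebraMap Qbar ℂ lam)⁻¹ * e ⟨i, s⟩))) =
      (∏ s : Fin (n i + 1), (X - C (MvPolynomial.C lam⁻¹ * MvPolynomial.X (R := Qbar)
        (⟨i, s⟩ : Σ i, Fin (n i + 1))))).map (MvPolynomial.aeval e : _ →ₐ[Qbar] ℂ).toRingHom := by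
    rw [Polynomial.map_prod]
    refine Finset.prod_congr rfl fun r _ => ?_
    rw [Polynomial.map_sub, Polynomial.map_X, Polynomial.map_C]
    simp only [AlgHom.toRingHom_eq_coe, RingHom.coe_coe, map_mul, MvPolynomial.aeval_X, MvPolynomial.aeval_C, map_inv₀]
  rw [co, h1, coeff_map]
  rfl

/-- the coefficients of the polynomials with the rotated roots, in terms of the coefficients -/
noncomputable def cfL (n : ι → ℕ) (lam : Qbar) (i : ι) (k : ℕ) : MvPolynomial (Σ i, Fin (n i + 1)) Qbar :=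
  if h : k < n i + 1 then MvPolynomial.C (lam ^ (n i + 1 - k)) * MvPolynomial.X ⟨i, ⟨k, h⟩⟩
  else if k = n i + 1 then 1 else 0

theorem cfL_eval (n : ι → ℕ) (lam : Qbar) (hlam : lam ≠ 0) (i : ι) (k : ℕ) (e : (Σ i, Fin (n i + 1)) → ℂ) :
    MvPolynomial.aeval (cv (cL n lam) e) (cfL n lam i k) =
      (∏ r : Fin (n i + 1), (Polynomial.X - Polynomial.C (e ⟨i, r⟩))).coeff k := by
  have hl : algebraMap Qbar ℂ lam ≠ 0 := by
    rw [Ne, map_eq_zero]
    exact hlam
  have he : ∀ r, e ⟨i, r⟩ = algebraMap Qbar ℂ lam * ((algebraMap Qbar ℂ lam)⁻¹ * e ⟨i, r⟩) := by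
    intro r
    field_simp
  unfold cfL
  split_ifs with h1 h2
  · have h3 : (∏ r : Fin (n i + 1), (Polynomial.X - Polynomial.C (e ⟨i, r⟩))) =
        ∏ r : Fin (n i + 1), (Polynomial.X - Polynomial.C (algebraMap Qbar ℂ lam *
          ((algebraMap Qbar ℂ lam)⁻¹ * e ⟨i, r⟩))) := Finset.prod_congr rfl fun r _ => by rw [← he]
    rw [h3, scale_coeff hl _ _ h1.le, map_mul, MvPolynomial.aeval_C, MvPolynomial.aeval_X, map_pow]
    congr 1
    exact congrFun (cv_cL n lam e i) ⟨k, h1⟩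
  · rw [map_one, h2]
    have h3 := (prod_monic fun r : Fin (n i + 1) => e ⟨i, r⟩).coeff_natDegree
    rw [prod_degree] at h3
    exact h3.symm
  · rw [map_zero, coeff_eq_zero_of_natDegree_lt]
    rw [prod_degree]
    omega

/-- the polarization in terms of the coefficients -/
noncomputable def QL (n : ι → ℕ) (lam : Qbar) (i : ι) :
    Matrix (Fin (n i)) (Fin (n i)) (MvPolynomial (Σ i, Fin (n i + 1)) Qbar) :=
  Matrix.of fun a b => MvPolynomial.C (twoI * ((((a : ℕ) : Qbar) - ((b : ℕ) : Qbar)) / 2)) *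
    cfL n lam i ((a : ℕ) + (b : ℕ) + 2)

theorem QL_alt (n : ι → ℕ) (lam : Qbar) (i : ι) : (QL n lam i).transpose = -QL n lam i := by
  refine Matrix.ext fun a b => ?_
  have h1 : (MvPolynomial.C (twoI * ((((b : ℕ) : Qbar) - ((a : ℕ) : Qbar)) / 2)) :
      MvPolynomial (Σ i, Fin (n i + 1)) Qbar) =
      -MvPolynomial.C (twoI * ((((a : ℕ) : Qbar) - ((b : ℕ) : Qbar)) / 2)) := by
    rw [← map_neg]
    congr 1
    ring
  rw [Matrix.transpose_apply, Matrix.neg_apply, QL, Matrix.of_apply, Matrix.of_apply,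
    show (b : ℕ) + (a : ℕ) + 2 = (a : ℕ) + (b : ℕ) + 2 by omega, h1]
  generalize (MvPolynomial.C (twoI * ((((a : ℕ) : Qbar) - ((b : ℕ) : Qbar)) / 2)) :
      MvPolynomial (Σ i, Fin (n i + 1)) Qbar) = A
  generalize cfL n lam i ((a : ℕ) + (b : ℕ) + 2) = B
  ring

theorem QL_eval (n : ι → ℕ) (lam : Qbar) (hlam : lam ≠ 0) (e : (Σ i, Fin (n i + 1)) → ℂ) (i : ι) :
    (QL n lam i).map (MvPolynomial.aeval (cv (cL n lam) e)) = (QQ n i).map (MvPolynomial.aeval e) := by
  refine Matrix.ext fun a b => ?_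
  rw [Matrix.map_apply, Matrix.map_apply, QL, QQ, Matrix.of_apply, Matrix.of_apply,
    map_mul (MvPolynomial.aeval (cv (cL n lam) e)), map_mul (MvPolynomial.aeval e),
    cfL_eval n lam hlam, cfQ_eval, MvPolynomial.aeval_C, MvPolynomial.aeval_C]

variable [Fintype ι] [DecidableEq ι]

/-- the domain in the space of the coefficients -/
def WL (n : ι → ℕ) (lam : ℂ) : Set ((Σ i, Fin (n i + 1)) → ℂ) := {a | ∀ i, bk a i ∈ co '' OrdL lam (n i)}

/-- the rotated roots -/
noncomputable def ZL (n : ι → ℕ) (lam : ℂ) (a : (Σ i, Fin (n i + 1)) → ℂ) : (Σ i, Fin (n i + 1)) → ℂ :=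
  fun q => Zb lam (n q.1) (bk a q.1) q.2

theorem bk_cont {n : ι → ℕ} (i : ι) : Continuous fun a : (Σ i, Fin (n i + 1)) → ℂ => bk a i :=
  continuous_pi fun r => continuous_apply (⟨i, r⟩ : Σ i, Fin (n i + 1))

theorem WL_open (n : ι → ℕ) (lam : ℂ) : IsOpen (WL n lam) := by
  have h1 : WL n lam = ⋂ i, (fun a => bk a i) ⁻¹' (co '' OrdL lam (n i)) := by
    ext a
    simp [WL]
  rw [h1]
  exact isOpen_iInter_of_finite fun i => (block_inv (n i)).1.preimage (bk_cont i)

theorem ZL_an (n : ι → ℕ) (lam : ℂ) (q : Σ i, Fin (n i + 1)) :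
    AnalyticOnNhd ℂ (fun a => ZL n lam a q) (WL n lam) := by
  intro a ha
  have h1 : AnalyticAt ℂ (fun a : (Σ i, Fin (n i + 1)) → ℂ => bk a q.1) a := by
    have h2 : AnalyticAt ℂ (fun a : (Σ i, Fin (n i + 1)) → ℂ => fun r => a ⟨q.1, r⟩) a :=
      AnalyticAt.pi fun r => (ContinuousLinearMap.proj (R := ℂ)
        (φ := fun _ : (Σ i, Fin (n i + 1)) => ℂ) ⟨q.1, r⟩).analyticAt a
    exact h2
  exact ((block_inv (n q.1)).2 q.2 _ (ha q.1)).comp h1

/-- **Products of hyperelliptic curves, over the space of the coefficients.** -/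
noncomputable def hypL (n : ι → ℕ) (hn : ∀ i, Even (n i)) (lam : Qbar) (hlam : lam ≠ 0) :
    SympFam (Σ i, Fin (n i + 1)) n :=
  push (hyp n hn) (cL n lam) (WL n (algebraMap Qbar ℂ lam)) (ZL n (algebraMap Qbar ℂ lam)) (WL_open _ _) (ZL_an _ _)
    (by
      have hl : algebraMap Qbar ℂ lam ≠ 0 := by
        rw [Ne, map_eq_zero]
        exact hlam
      intro a ha
      choose z hz1 hz2 using ha
      have h1 : ∀ i, bk (ZL n (algebraMap Qbar ℂ lam) a) i = fun r => algebraMap Qbar ℂ lam * z i r := by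
        intro i
        have h2 : bk (ZL n (algebraMap Qbar ℂ lam) a) i = Zb (algebraMap Qbar ℂ lam) (n i) (bk a i) := rfl
        rw [h2, ← hz2, Zb_co (hz1 i)]
      refine ⟨fun i r s hrs => ?_, ?_⟩
      · have h2 := congrFun (h1 i) r
        have h3 := congrFun (h1 i) s
        have h4 := hz1 i r s hrs
        change (bk (ZL n (algebraMap Qbar ℂ lam) a) i r).re < (bk (ZL n (algebraMap Qbar ℂ lam) a) i s).re
        rw [h2, h3]
        exact h4
      · have h5 : ∀ i, bk (cv (cL n lam) (ZL n (algebraMap Qbar ℂ lam) a)) i = bk a i := by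
          intro i
          rw [cv_cL, ← hz2]
          congr 1
          funext s
          have h2 := congrFun (h1 i) s
          change (algebraMap Qbar ℂ lam)⁻¹ * bk (ZL n (algebraMap Qbar ℂ lam) a) i s = z i s
          rw [h2]
          field_simp
        funext q
        exact congrFun (h5 q.1) q.2)
    (by
      have hl : algebraMap Qbar ℂ lam ≠ 0 := by
        rw [Ne, map_eq_zero]
        exact hlam
      intro e he
      have h1 : ∀ i, (fun s => (algebraMap Qbar ℂ lam)⁻¹ * e ⟨i, s⟩) ∈ OrdL (algebraMap Qbar ℂ lam) (n i) := by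
        intro i r s hrs
        have h2 : ∀ s, algebraMap Qbar ℂ lam * ((algebraMap Qbar ℂ lam)⁻¹ * e ⟨i, s⟩) = e ⟨i, s⟩ := by
          intro s
          field_simp
        rw [h2, h2]
        exact he i r s hrs
      refine ⟨fun i => ?_, ?_⟩
      · rw [cv_cL]
        exact ⟨_, h1 i, rfl⟩
      · funext q
        change Zb (algebraMap Qbar ℂ lam) (n q.1) (bk (cv (cL n lam) e) q.1) q.2 = e q
        rw [cv_cL, Zb_co (h1 q.1)]
        change algebraMap Qbar ℂ lam * ((algebraMap Qbar ℂ lam)⁻¹ * e q) = e q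
        field_simp)
    (QL n lam) (QL_alt n lam) (QL_eval n lam hlam)

end Pool.Agent.X255.NH
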